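import Pool.Agent.H559.PB.Stm

set_option autoImplicit false

/-! # From the numbers of digits to all `x` (helper390) -/

open Finset Filter Topology

namespace Pool.Agent.H559.PB

namespace All

/-- a palindrome is determined by its second half -/
theorem pal_ext {d d' : List ℕ} (h : d.reverse = d) (h' : d'.reverse = d')
    (hl : d.length = d'.length) (hd : d.drop (d.length / 2) = d'.drop (d'.length / 2)) :
    d = d' := by
  have key : ∀ e : List ℕ, e.reverse = e → e.take (e.length / 2) =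
      ((e.drop (e.length / 2)).drop (e.length - e.length / 2 - e.length / 2)).reverse := by
    intro e he
    have h1 : e.take (e.length / 2) = (e.reverse).take (e.length / 2) := by rw [he]
    rw [h1, List.take_reverse, List.drop_drop]
    congr 2
    omega
  rw [← List.take_append_drop (d.length / 2) d, ← List.take_append_drop (d'.length / 2) d',
    key d h, key d' h', hd, hl]

theorem length_half {b v : ℕ} (hb : 2 ≤ b) (hv : 1 ≤ v) :
    (Nat.digits b (v / b ^ ((Nat.digits b v).length / 2))).length =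
      (Nat.digits b v).length - (Nat.digits b v).length / 2 := by
  have hb1 : 1 < b := by omega
  obtain ⟨k, hk⟩ : ∃ k, k = (Nat.digits b v).length := ⟨_, rfl⟩
  rw [← hk]
  have h1 : v < b ^ k := (Nat.digits_length_le_iff hb1 v).1 hk.ge
  have hk0 : 0 < k := by
    rw [hk]
    exact (Nat.lt_digits_length_iff hb1 v).2 (by simpa using hv)
  have h2 : b ^ (k - 1) ≤ v := (Nat.lt_digits_length_iff hb1 v).1 (by omega)
  have hpos : 0 < b ^ (k / 2) := Nat.pow_pos (by omega)
  apply le_antisymm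
  · rw [Nat.digits_length_le_iff hb1, Nat.div_lt_iff_lt_mul hpos, ← pow_add]
    have : k - k / 2 + k / 2 = k := by omega
    rwa [this]
  · have h3 : k - 1 - k / 2 < (Nat.digits b (v / b ^ (k / 2))).length := by
      rw [Nat.lt_digits_length_iff hb1, Nat.le_div_iff_mul_le hpos, ← pow_add]
      have : k - 1 - k / 2 + k / 2 = k - 1 := by omega
      rwa [this]
    omega

open Classical in
/-- an upper bound for the number of the palindromes -/
theorem card_le {b : ℕ} (hb : 2 ≤ b) (L x : ℕ) (hx : x < b ^ (2 * L + 2)) :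
    ((Icc 1 x).filter (fun v => Palb b v)).card ≤ 2 * b ^ (L + 1) := by
  have hb1 : 1 < b := by omega
  have h := Finset.card_le_card_of_injOn
    (s := (Icc 1 x).filter (fun v => Palb b v)) (t := range (b ^ (L + 1)) ×ˢ range 2)
    (fun v => (v / b ^ ((Nat.digits b v).length / 2), (Nat.digits b v).length % 2)) ?_ ?_
  · rw [card_product, card_range, card_range] at h
    omega
  · intro v hv
    rw [mem_coe, mem_filter, mem_Icc] at hv
    obtain ⟨⟨hv1, hv2⟩, hv3⟩ := hv
    rw [mem_coe, mem_product, mem_range, mem_range]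
    refine ⟨?_, Nat.mod_lt _ (by norm_num)⟩
    show v / b ^ ((Nat.digits b v).length / 2) < b ^ (L + 1)
    rw [← Nat.digits_length_le_iff hb1, length_half hb hv1]
    have h1 : (Nat.digits b v).length ≤ 2 * L + 2 := by
      rw [Nat.digits_length_le_iff hb1]
      omega
    omega
  · intro v hv w hw hvw
    rw [mem_coe, mem_filter, mem_Icc] at hv hw
    obtain ⟨⟨hv1, hv2⟩, hv3⟩ := hv
    obtain ⟨⟨hw1, hw2⟩, hw3⟩ := hw
    have e1 : v / b ^ ((Nat.digits b v).length / 2) = w / b ^ ((Nat.digits b w).length / 2) :=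
      congrArg Prod.fst hvw
    have e2 : (Nat.digits b v).length % 2 = (Nat.digits b w).length % 2 := congrArg Prod.snd hvw
    have e3 := length_half hb hv1
    rw [e1, length_half hb hw1] at e3
    have e4 : (Nat.digits b v).length = (Nat.digits b w).length := by omega
    have e5 : Nat.digits b v = Nat.digits b w := by
      refine pal_ext hv3.2 hw3.2 e4 ?_
      apply Nat.ofDigits_inj_of_len_eq hb1
      · rw [List.length_drop, List.length_drop, e4]
      · intro l hl
        exact Nat.digits_lt_base hb1 (List.mem_of_mem_drop hl)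
      · intro l hl
        exact Nat.digits_lt_base hb1 (List.mem_of_mem_drop hl)
      · rw [← Nat.self_div_pow_eq_ofDigits_drop _ _ hb, ← Nat.self_div_pow_eq_ofDigits_drop _ _ hb]
        exact e1
    rw [← Nat.ofDigits_digits b v, ← Nat.ofDigits_digits b w, e5]

/-- the palindromes with an even number of digits -/
theorem even_pal {b : ℕ} (hb : 2 ≤ b) {h : ℕ} (hh : 1 ≤ h) :
    Nat.digits b (Nat.ofDigits b ((Nat.digits b h).reverse ++ Nat.digits b h)) =
      (Nat.digits b h).reverse ++ Nat.digits b h := by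
  have hb1 : 1 < b := by omega
  apply Nat.digits_ofDigits b hb1
  · intro l hl
    rw [List.mem_append, List.mem_reverse, or_self] at hl
    exact Nat.digits_lt_base hb1 hl
  · intro hne
    have h0 : Nat.digits b h ≠ [] := Nat.digits_ne_nil_iff_ne_zero.2 (by omega)
    rw [List.getLast_append_of_ne_nil _ h0]
    exact Nat.getLast_digit_ne_zero b (by omega)

open Classical in
/-- a lower bound for the number of the palindromes -/
theorem le_card {b : ℕ} (hb : 2 ≤ b) (L x : ℕ) (hx : b ^ (2 * L) ≤ x) :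
    b ^ L - 1 ≤ ((Icc 1 x).filter (fun v => Palb b v)).card := by
  have hb1 : 1 < b := by omega
  have h := Finset.card_le_card_of_injOn
    (s := Icc 1 (b ^ L - 1)) (t := (Icc 1 x).filter (fun v => Palb b v))
    (fun h => Nat.ofDigits b ((Nat.digits b h).reverse ++ Nat.digits b h)) ?_ ?_
  · rw [Nat.card_Icc] at h
    omega
  · intro h hh
    rw [mem_coe, mem_Icc] at hh
    have hpos : 0 < b ^ L := Nat.pow_pos (by omega)
    rw [mem_coe, mem_filter, mem_Icc]
    have e1 := even_pal hb hh.1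
    show (1 ≤ Nat.ofDigits b ((Nat.digits b h).reverse ++ Nat.digits b h) ∧
      Nat.ofDigits b ((Nat.digits b h).reverse ++ Nat.digits b h) ≤ x) ∧
      Palb b (Nat.ofDigits b ((Nat.digits b h).reverse ++ Nat.digits b h))
    have e2 : 1 ≤ Nat.ofDigits b ((Nat.digits b h).reverse ++ Nat.digits b h) := by
      by_contra h0
      have h1 : Nat.ofDigits b ((Nat.digits b h).reverse ++ Nat.digits b h) = 0 := by omega
      rw [h1, Nat.digits_zero] at e1
      have h2 : Nat.digits b h = [] := (List.append_eq_nil_iff.1 e1.symm).2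
      rw [Nat.digits_eq_nil_iff_eq_zero] at h2
      omega
    refine ⟨⟨e2, ?_⟩, e2, ?_⟩
    · have h1 : (Nat.digits b h).length ≤ L := by
        rw [Nat.digits_length_le_iff hb1]
        omega
      have h2 : Nat.ofDigits b ((Nat.digits b h).reverse ++ Nat.digits b h) < b ^ (2 * L) := by
        rw [← Nat.digits_length_le_iff hb1, e1, List.length_append, List.length_reverse]
        omega
      omega
    · rw [e1, List.reverse_append, List.reverse_reverse]
  · intro h hh h' hh' heq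
    rw [mem_coe, mem_Icc] at hh hh'
    have e1 := even_pal hb hh.1
    have e2 := even_pal hb hh'.1
    have e3 : Nat.ofDigits b ((Nat.digits b h).reverse ++ Nat.digits b h) =
      Nat.ofDigits b ((Nat.digits b h').reverse ++ Nat.digits b h') := heq
    rw [e3, e2] at e1
    have e4 : (Nat.digits b h').length = (Nat.digits b h).length := by
      have := congrArg List.length e1
      rw [List.length_append, List.length_append, List.length_reverse, List.length_reverse] at this
      omega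
    have e5 : Nat.digits b h' = Nat.digits b h :=
      (List.append_inj e1 (by rw [List.length_reverse, List.length_reverse, e4])).2
    rw [← Nat.ofDigits_digits b h, ← Nat.ofDigits_digits b h', e5]

/-- a sum of quotients -/
theorem sum_le {b : ℕ} (hb : 2 ≤ b) (L : ℕ) :
    ∑ j ∈ range (L + 1), (b : ℝ) ^ j / (j + 2) ≤ 4 * ((b : ℝ) ^ L / (L + 2)) := by
  have hb2 : (2 : ℝ) ≤ b := by exact_mod_cast hb
  induction L with
  | zero =>
    rw [zero_add, sum_range_one]
    norm_num
  | succ L ih =>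
    rw [sum_range_succ]
    push_cast
    have hL : (0 : ℝ) ≤ L := Nat.cast_nonneg L
    have hp : (0 : ℝ) < (b : ℝ) ^ L := by positivity
    have h1 : 4 * ((b : ℝ) ^ L / (L + 2)) ≤ 3 * ((b : ℝ) ^ (L + 1) / (L + 1 + 2)) := by
      rw [mul_div_assoc', mul_div_assoc', div_le_div_iff₀ (by positivity) (by positivity), pow_succ]
      have h2 : 4 * ((L : ℝ) + 1 + 2) ≤ 3 * b * (L + 2) := by nlinarith
      nlinarith
    linarith

/-- exponential growth -/
theorem ev_big {b : ℕ} (hb : 2 ≤ b) (K : ℝ) : ∀ᶠ L : ℕ in atTop, K * (L + 2) ≤ (b : ℝ) ^ L := by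
  have hb2 : (1 : ℝ) < b := by exact_mod_cast (show 1 < b by omega)
  have h1 := tendsto_pow_const_div_const_pow_of_one_lt 1 hb2
  have h2 : ∀ᶠ L : ℕ in atTop, (L : ℝ) ^ 1 / (b : ℝ) ^ L < 1 / (3 * (|K| + 1)) :=
    h1.eventually (eventually_lt_nhds (by positivity))
  filter_upwards [h2, eventually_ge_atTop 1] with L hL hL1
  have hL1' : (1 : ℝ) ≤ L := by exact_mod_cast hL1
  have hp : (0 : ℝ) < (b : ℝ) ^ L := by positivity
  rw [pow_one, div_lt_div_iff₀ hp (by positivity), one_mul] at hL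
  have hK : K ≤ |K| := le_abs_self K
  have hK0 : 0 ≤ |K| := abs_nonneg K
  nlinarith

end All

open All

theorem t_all : S_all := by
  classical
  intro b κ hb hκ
  have hb1 : 1 < b := by omega
  have hbR : (2 : ℝ) ≤ b := by exact_mod_cast hb
  obtain ⟨ℓ, hℓ⟩ : ∃ ℓ : ℝ, ℓ = Real.log b := ⟨_, rfl⟩
  have hℓ0 : 0 < ℓ := by
    rw [hℓ]
    exact Real.log_pos (by linarith)
  obtain ⟨C, hC⟩ : ∃ C : ℝ, C = 2 * b ^ 2 / (κ * ℓ) + 4 * ℓ * (12 * κ + 13) := ⟨_, rfl⟩
  have hC1 : 2 * (b : ℝ) ^ 2 / (κ * ℓ) ≤ C := by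
    rw [hC]
    have : 0 ≤ 4 * ℓ * (12 * κ + 13) := by positivity
    linarith
  have hC2 : 4 * ℓ * (12 * κ + 13) ≤ C := by
    rw [hC]
    have : 0 ≤ 2 * (b : ℝ) ^ 2 / (κ * ℓ) := by positivity
    linarith
  have hC0 : 0 < C := lt_of_lt_of_le (by positivity) hC2
  refine ⟨C, hC0, ?_⟩
  intro R hR1 hR2
  obtain ⟨N, hN⟩ : ∃ N : ℕ → ℝ, N = fun L => (((palb b L).filter (fun v => v ∈ R)).card : ℝ) :=
    ⟨_, rfl⟩
  have hN0 : ∀ L, 0 ≤ N L := by
    intro L
    rw [hN]
    exact Nat.cast_nonneg _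
  -- the limits
  have hev1 : ∀ᶠ L : ℕ in atTop, κ / 2 < N L * L / (b : ℝ) ^ L := by
    rw [hN]
    exact hR2.eventually (lt_mem_nhds (by linarith))
  have hev2 : ∀ᶠ L : ℕ in atTop, N L * L / (b : ℝ) ^ L < κ + 1 := by
    rw [hN]
    exact hR2.eventually (gt_mem_nhds (by linarith))
  obtain ⟨V₀, hV₀⟩ := eventually_atTop.1 hR1
  obtain ⟨L₁, hL₁⟩ := eventually_atTop.1 hev1
  obtain ⟨L₂, hL₂⟩ := eventually_atTop.1 hev2
  obtain ⟨A, hA⟩ : ∃ A : ℝ, A = V₀ + ∑ j ∈ range (L₂ + 1), N j := ⟨_, rfl⟩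
  obtain ⟨L₃, hL₃⟩ := eventually_atTop.1 (ev_big hb A)
  obtain ⟨L₀, hL₀⟩ : ∃ L₀ : ℕ, L₀ = L₁ + L₃ + 2 := ⟨_, rfl⟩
  rw [eventually_atTop]
  refine ⟨b ^ (2 * L₀), ?_⟩
  intro x hx
  -- the number of digits
  obtain ⟨L, hL⟩ : ∃ L : ℕ, L = Nat.log b x / 2 := ⟨_, rfl⟩
  have hx0 : x ≠ 0 := by
    have : 0 < b ^ (2 * L₀) := Nat.pow_pos (by omega)
    omega
  have hxL : b ^ (2 * L) ≤ x :=
    (Nat.pow_le_pow_right (by omega) (by omega)).trans (Nat.pow_log_le_self b hx0)
  have hxU : x < b ^ (2 * L + 2) :=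
    lt_of_lt_of_le (Nat.lt_pow_succ_log_self hb1 x) (Nat.pow_le_pow_right (by omega) (by omega))
  have hLL : L₀ ≤ L := by
    have h1 : 2 * L₀ ≤ Nat.log b x := Nat.le_log_of_pow_le hb1 hx
    omega
  have hL1 : (1 : ℝ) ≤ L := by exact_mod_cast (show 1 ≤ L by omega)
  have hxpos : (0 : ℝ) < x := by exact_mod_cast Nat.pos_of_ne_zero hx0
  have hlog1 : 2 * L * ℓ ≤ Real.log x := by
    have h1 : Real.log ((b : ℝ) ^ (2 * L)) ≤ Real.log x :=
      Real.log_le_log (by positivity) (by exact_mod_cast hxL)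
    rw [Real.log_pow, ← hℓ] at h1
    push_cast at h1
    exact h1
  have hlog2 : Real.log x ≤ (2 * L + 2) * ℓ := by
    have h1 : Real.log x ≤ Real.log ((b : ℝ) ^ (2 * L + 2)) :=
      Real.log_le_log hxpos (by exact_mod_cast hxU.le)
    rw [Real.log_pow, ← hℓ] at h1
    push_cast at h1
    exact h1
  have hlog0 : 0 < Real.log x := lt_of_lt_of_le (by positivity) hlog1
  -- the palindromes
  obtain ⟨P, hP⟩ : ∃ P : ℝ, P = (((Icc 1 x).filter (fun v => Palb b v)).card : ℝ) := ⟨_, rfl⟩
  obtain ⟨Q, hQ⟩ : ∃ Q : ℝ, Q = (((Icc 1 x).filter (fun v => Palb b v ∧ v ∈ R)).card : ℝ) :=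
    ⟨_, rfl⟩
  have hP1 : P ≤ 2 * (b : ℝ) ^ (L + 1) := by
    rw [hP]
    exact_mod_cast card_le hb L x hxU
  have hpL : (0 : ℝ) < (b : ℝ) ^ L := by positivity
  have hP2 : (b : ℝ) ^ L / 2 ≤ P := by
    have h1 := le_card hb L x hxL
    have h2 : b ^ L ≤ ((Icc 1 x).filter (fun v => Palb b v)).card + 1 := by omega
    have h3 : (b : ℝ) ^ L ≤ P + 1 := by
      rw [hP]
      exact_mod_cast h2
    have h4 : (2 : ℝ) ≤ (b : ℝ) ^ L := by
      calc (2 : ℝ) ≤ b := hbR
        _ = (b : ℝ) ^ 1 := (pow_one _).symm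
        _ ≤ (b : ℝ) ^ L := pow_le_pow_right₀ (by linarith) (by omega)
    linarith
  -- the lower bound for `Q`
  have hQ1 : N (L - 1) ≤ Q := by
    rw [hN, hQ]
    have h1 : (palb b (L - 1)).filter (fun v => v ∈ R) ⊆
        (Icc 1 x).filter (fun v => Palb b v ∧ v ∈ R) := by
      intro v hv
      rw [mem_filter] at hv
      obtain ⟨hv1, hv2⟩ := hv
      unfold palb at hv1
      rw [mem_filter, mem_range] at hv1
      obtain ⟨h2, h3, h4⟩ := hv1
      have h5 : 1 ≤ v := (Nat.one_le_pow _ _ (by omega)).trans h3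
      have h6 : b ^ (2 * (L - 1) + 1) ≤ b ^ (2 * L) := Nat.pow_le_pow_right (by omega) (by omega)
      rw [mem_filter, mem_Icc]
      exact ⟨⟨h5, by omega⟩, ⟨h5, h4⟩, hv2⟩
    show (((palb b (L - 1)).filter (fun v => v ∈ R)).card : ℝ) ≤
      (((Icc 1 x).filter (fun v => Palb b v ∧ v ∈ R)).card : ℝ)
    exact Nat.cast_le.2 (card_le_card h1)
  -- the upper bound for `Q`
  have hQ2 : Q ≤ V₀ + ∑ j ∈ range (L + 1), N j := by
    have h1 : (Icc 1 x).filter (fun v => Palb b v ∧ v ∈ R) ⊆
        range V₀ ∪ (range (L + 1)).biUnion (fun j => (palb b j).filter (fun v => v ∈ R)) := by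
      intro v hv
      rw [mem_filter, mem_Icc] at hv
      obtain ⟨⟨hv1, hv2⟩, hv3, hv4⟩ := hv
      rw [mem_union, mem_range, mem_biUnion]
      by_cases hvV : v < V₀
      · exact Or.inl hvV
      · right
        obtain ⟨j, hj⟩ := hV₀ v (by omega) hv4 hv3
        have h2 : v < b ^ (2 * j + 1) := (Nat.digits_length_le_iff hb1 v).1 hj.le
        have h3 : b ^ (2 * j) ≤ v := (Nat.lt_digits_length_iff hb1 v).1 (by omega)
        refine ⟨j, ?_, ?_⟩
        · rw [mem_range]
          by_contra hcon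
          have h4 : b ^ (2 * L + 2) ≤ b ^ (2 * j) := Nat.pow_le_pow_right (by omega) (by omega)
          omega
        · rw [mem_filter]
          unfold palb
          rw [mem_filter, mem_range]
          exact ⟨⟨h2, h3, hv3.2⟩, hv4⟩
    have h2 := (card_le_card h1).trans (card_union_le _ _)
    have h3 := card_biUnion_le (s := range (L + 1))
      (t := fun j => (palb b j).filter (fun v => v ∈ R))
    rw [card_range] at h2
    rw [hQ, hN]
    have h4 : (((Icc 1 x).filter (fun v => Palb b v ∧ v ∈ R)).card : ℝ) ≤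
        ((V₀ + ∑ j ∈ range (L + 1), ((palb b j).filter (fun v => v ∈ R)).card : ℕ) : ℝ) := by
      exact_mod_cast h2.trans (Nat.add_le_add_left h3 _)
    push_cast at h4
    exact h4
  have hQ3 : Q ≤ (12 * κ + 13) * ((b : ℝ) ^ L / (L + 2)) := by
    have h1 : ∀ j ∈ range (L + 1), N j ≤ (if j ∈ range (L₂ + 1) then N j else 0) +
        3 * (κ + 1) * ((b : ℝ) ^ j / (j + 2)) := by
      intro j _
      have hj0 : 0 ≤ 3 * (κ + 1) * ((b : ℝ) ^ j / (j + 2)) := by positivity
      by_cases hj : j ∈ range (L₂ + 1)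
      · rw [if_pos hj]
        linarith
      · rw [if_neg hj, zero_add]
        rw [mem_range] at hj
        have h2 := hL₂ j (by omega)
        have hp : (0 : ℝ) < (b : ℝ) ^ j := by positivity
        rw [div_lt_iff₀ hp] at h2
        have hj1 : (1 : ℝ) ≤ j := by exact_mod_cast (show 1 ≤ j by omega)
        rw [mul_div_assoc', le_div_iff₀ (by positivity)]
        have h3 : N j * (j + 2) ≤ 3 * (N j * j) := by nlinarith [hN0 j]
        linarith
    have h2 := Finset.sum_le_sum h1
    rw [Finset.sum_add_distrib, ← Finset.mul_sum] at h2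
    have h3 : ∑ j ∈ range (L + 1), (if j ∈ range (L₂ + 1) then N j else 0) ≤
        ∑ j ∈ range (L₂ + 1), N j := by
      rw [← Finset.sum_filter]
      refine Finset.sum_le_sum_of_subset_of_nonneg ?_ fun j _ _ => hN0 j
      intro j hj
      exact (mem_filter.1 hj).2
    have h4 := mul_le_mul_of_nonneg_left (sum_le hb L) (show 0 ≤ 3 * (κ + 1) by positivity)
    have h5 : A ≤ (b : ℝ) ^ L / (L + 2) := by
      rw [le_div_iff₀ (by positivity)]
      exact hL₃ L (by omega)
    calc Q ≤ V₀ + ∑ j ∈ range (L + 1), N j := hQ2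
      _ ≤ A + 3 * (κ + 1) * (4 * ((b : ℝ) ^ L / (L + 2))) := by
          rw [hA]
          linarith
      _ ≤ (b : ℝ) ^ L / (L + 2) + 3 * (κ + 1) * (4 * ((b : ℝ) ^ L / (L + 2))) := by linarith
      _ = (12 * κ + 13) * ((b : ℝ) ^ L / (L + 2)) := by ring
  -- the conclusion
  rw [← hP, ← hQ]
  constructor
  · -- lower bound
    refine le_trans ?_ hQ1
    have h1 := hL₁ (L - 1) (by omega)
    have hp : (0 : ℝ) < (b : ℝ) ^ (L - 1) := by positivity
    rw [lt_div_iff₀ hp] at h1
    have hc : ((L - 1 : ℕ) : ℝ) ≤ L := by exact_mod_cast Nat.sub_le L 1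
    have h2 : κ / 2 * (b : ℝ) ^ (L - 1) ≤ N (L - 1) * L :=
      h1.le.trans (mul_le_mul_of_nonneg_left hc (hN0 _))
    have h3 : (b : ℝ) ^ (L + 1) = (b : ℝ) ^ (L - 1) * b ^ 2 := by
      rw [← pow_add]
      congr 1
      omega
    rw [div_le_iff₀ (by positivity)]
    have h4 : 2 * (b : ℝ) ^ 2 ≤ C * (κ * ℓ) := by
      rwa [div_le_iff₀ (by positivity)] at hC1
    calc P ≤ 2 * (b : ℝ) ^ (L + 1) := hP1
      _ = (b : ℝ) ^ (L - 1) * (2 * b ^ 2) := by rw [h3]; ring
      _ ≤ (b : ℝ) ^ (L - 1) * (C * (κ * ℓ)) := mul_le_mul_of_nonneg_left h4 hp.le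
      _ = 2 * ℓ * C * (κ / 2 * (b : ℝ) ^ (L - 1)) := by ring
      _ ≤ 2 * ℓ * C * (N (L - 1) * L) := mul_le_mul_of_nonneg_left h2 (by positivity)
      _ = N (L - 1) * (C * (2 * L * ℓ)) := by ring
      _ ≤ N (L - 1) * (C * Real.log x) := by
          refine mul_le_mul_of_nonneg_left ?_ (hN0 _)
          exact mul_le_mul_of_nonneg_left hlog1 hC0.le
  · -- upper bound
    rw [le_div_iff₀ hlog0]
    have hL2 : (0 : ℝ) < (L : ℝ) + 2 := by positivity
    have h1 : Real.log x ≤ 2 * (L + 2) * ℓ := by nlinarith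
    have hk : 0 ≤ 12 * κ + 13 := by positivity
    calc Q * Real.log x ≤ (12 * κ + 13) * ((b : ℝ) ^ L / (L + 2)) * (2 * (L + 2) * ℓ) :=
          mul_le_mul hQ3 h1 hlog0.le (by positivity)
      _ = 4 * ℓ * (12 * κ + 13) * ((b : ℝ) ^ L / 2) := by
          field_simp
          ring
      _ ≤ C * P := mul_le_mul hC2 hP2 (by positivity) hC0.le

end Pool.Agent.H559.PB
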