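import Pool.Agent.H559.PB.Stm

set_option autoImplicit false

/-! # Equidistribution of the palindromes with given outer and middle digits (helper236) -/

open Finset Filter Topology

namespace Pool.Agent.H559.PB.Dist

theorem shift (q s f r : ℕ) (hq : 1 ≤ q) : (s + f) % q = r % q ↔ f % q = (r + (q - 1) * s) % q := by
  obtain ⟨k, rfl⟩ : ∃ k, q = k + 1 := ⟨q - 1, by omega⟩
  rw [Nat.add_sub_cancel]
  constructor
  · intro h
    have h1 : (s + f) ≡ r [MOD (k + 1)] := h
    have h2 : k * s + (s + f) ≡ k * s + r [MOD (k + 1)] := h1.add_left _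
    have h3 : k * s + (s + f) = f + (k + 1) * s := by ring
    rw [h3] at h2
    have h4 : f + (k + 1) * s ≡ f [MOD (k + 1)] := by
      unfold Nat.ModEq
      rw [Nat.add_mul_mod_self_left]
    have h5 := h4.symm.trans h2
    rw [add_comm r]
    exact h5
  · intro h
    have h1 : f ≡ r + k * s [MOD (k + 1)] := h
    have h2 : s + f ≡ s + (r + k * s) [MOD (k + 1)] := h1.add_left _
    have h3 : s + (r + k * s) = r + (k + 1) * s := by ring
    rw [h3] at h2
    have h4 : r + (k + 1) * s ≡ r [MOD (k + 1)] := by
      unfold Nat.ModEq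
      rw [Nat.add_mul_mod_self_left]
    exact h2.trans h4

end Pool.Agent.H559.PB.Dist

namespace Pool.Agent.H559.PB

theorem t_distb (h1 : S_four) (h2 : S_par) : S_distb := by
  intro b hb K A
  filter_upwards [h1 b hb K A, eventually_ge_atTop 1] with L hL hL1 l m hl hlb hm q hq hqL hqc r
  obtain ⟨e1, e2⟩ := h2 b L l m hb hL1 hl hlb hm
  have e3 : (palb b L).filter (fun v => (v % b = l ∧ v / b ^ L % b = m) ∧ v % q = r % q) =
      ((Fintype.piFinset (fun _ : Fin (L - 1) => range b)).filter (fun f => free b L f % q =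
        (r + (q - 1) * (l * (b ^ (2 * L) + 1) + m * b ^ L)) % q)).image
        (fun f => l * (b ^ (2 * L) + 1) + m * b ^ L + free b L f) := by
    rw [← Finset.filter_filter, e1, Finset.filter_image]
    congr 1
    apply Finset.filter_congr
    intro f _
    exact Dist.shift q _ _ r hq
  have e4 : ((palb b L).filter (fun v => (v % b = l ∧ v / b ^ L % b = m) ∧ v % q = r % q)).card =
      ((Fintype.piFinset (fun _ : Fin (L - 1) => range b)).filter (fun f => free b L f % q =
        (r + (q - 1) * (l * (b ^ (2 * L) + 1) + m * b ^ L)) % q)).card := by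
    rw [e3]
    apply Finset.card_image_of_injOn
    intro f hf g hg hfg
    exact e2 (Finset.mem_coe.2 (Finset.mem_filter.1 (Finset.mem_coe.1 hf)).1)
      (Finset.mem_coe.2 (Finset.mem_filter.1 (Finset.mem_coe.1 hg)).1) hfg
  rw [e4]
  exact hL q hq hqL hqc _

end Pool.Agent.H559.PB
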