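import Pool.Agent.H559.PB.Stm

set_option autoImplicit false

/-! # Palindromes with an even number of digits -/

namespace Pool.Agent.H559.PB

theorem t_even : S_even := by
  intro b v _ hv h
  have h1 := Nat.dvd_iff_dvd_ofDigits (b + 1) b (-1 : ℤ) (by push_cast; simp) v
  rw [h1, Nat.ofDigits_neg_one]
  set dig := (Nat.digits b v).map fun n : ℕ => (n : ℤ) with hd
  have hl : Even dig.length := by rwa [hd, List.length_map]
  have h2 := dig.alternatingSum_reverse
  have h3 : dig.reverse = dig := by rw [hd, ← List.map_reverse, hv.2]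
  rw [h3, pow_succ', hl.neg_one_pow, mul_one, neg_one_zsmul] at h2
  rw [eq_zero_of_neg_eq h2.symm]
  exact dvd_zero _

end Pool.Agent.H559.PB
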