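import Pool.Agent.H559.PB.Stm

/-!
Palindromes in base `b`: equidistribution of the free part, `S_four`, by helper358.
-/

set_option autoImplicit false

open Finset Filter Topology

namespace Pool.Agent.H559.PB.Four

/-! ### Additive characters -/

section char

variable {q : ℕ} [NeZero q]

theorem psi_eq (x : ZMod q) : (ZMod.stdAddChar x : ℂ) =
    Complex.exp ((2 * Real.pi * ((x.valMinAbs : ℝ) / q) : ℝ) * Complex.I) := by
  conv_lhs => rw [← x.coe_valMinAbs]
  rw [ZMod.stdAddChar_coe]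
  congr 1
  push_cast
  ring

theorem norm_psi (x : ZMod q) : ‖(ZMod.stdAddChar x : ℂ)‖ = 1 := by
  rw [psi_eq, Complex.norm_exp_ofReal_mul_I]

theorem norm_one_add (x : ZMod q) :
    ‖1 + (ZMod.stdAddChar x : ℂ)‖ ≤ 2 - 4 * ((x.valMinAbs : ℝ) / q) ^ 2 := by
  have hq0 : (0 : ℝ) < q := by exact_mod_cast Nat.pos_of_ne_zero (NeZero.ne q)
  set u : ℝ := (x.valMinAbs : ℝ) / q with hu
  have hu2 : |u| ≤ 1 / 2 := by
    have h1 := x.valMinAbs_mem_Ioc
    have h2 : (-(q : ℝ)) ≤ (x.valMinAbs : ℝ) * 2 := by exact_mod_cast h1.1.le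
    have h3 : (x.valMinAbs : ℝ) * 2 ≤ q := by exact_mod_cast h1.2
    rw [abs_le, hu]
    constructor
    · rw [le_div_iff₀ hq0]; linarith
    · rw [div_le_iff₀ hq0]; linarith
  have hu3 : u ^ 2 ≤ 1 / 4 := by
    have := abs_le.1 hu2
    nlinarith [this.1, this.2]
  have hcos : Real.cos (2 * Real.pi * u) ≤ 1 - 8 * u ^ 2 := by
    have h1 := Real.cos_le_one_sub_mul_cos_sq (x := 2 * Real.pi * u) (by
      rw [abs_mul, abs_of_pos (by positivity : (0 : ℝ) < 2 * Real.pi)]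
      nlinarith [Real.pi_pos])
    have h2 : 2 / Real.pi ^ 2 * (2 * Real.pi * u) ^ 2 = 8 * u ^ 2 := by
      have := Real.pi_ne_zero
      field_simp
      ring
    rw [h2] at h1
    exact h1
  have hsq : ‖1 + (ZMod.stdAddChar x : ℂ)‖ ^ 2 = 2 + 2 * Real.cos (2 * Real.pi * u) := by
    rw [psi_eq, ← hu, Complex.exp_mul_I, ← Complex.normSq_eq_norm_sq, Complex.normSq_apply]
    simp only [Complex.add_re, Complex.add_im, Complex.one_re, Complex.one_im, Complex.mul_re,
      Complex.mul_im, Complex.I_re, Complex.I_im, Complex.cos_ofReal_re, Complex.cos_ofReal_im,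
      Complex.sin_ofReal_re, Complex.sin_ofReal_im]
    have := Real.sin_sq_add_cos_sq (2 * Real.pi * u)
    nlinarith
  have h0 : 0 ≤ 2 - 4 * u ^ 2 := by linarith
  refine le_of_sq_le_sq ?_ h0
  rw [hsq]
  nlinarith [sq_nonneg (u ^ 2)]

theorem norm_S_le (b : ℕ) (x : ZMod q) :
    ‖∑ j ∈ range b, (ZMod.stdAddChar x : ℂ) ^ j‖ ≤ b := by
  refine (_root_.norm_sum_le _ _).trans ?_
  simp [norm_pow]

theorem norm_S_lt (b : ℕ) (hb : 2 ≤ b) (x : ZMod q) :
    ‖∑ j ∈ range b, (ZMod.stdAddChar x : ℂ) ^ j‖ ≤ b - 4 * ((x.valMinAbs : ℝ) / q) ^ 2 := by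
  obtain ⟨m, rfl⟩ := Nat.exists_eq_add_of_le' hb
  rw [Finset.sum_range_succ', Finset.sum_range_succ', pow_zero, zero_add, pow_one, add_assoc]
  refine (norm_add_le _ _).trans ?_
  have h1 : ‖∑ j ∈ range m, (ZMod.stdAddChar x : ℂ) ^ (j + 1 + 1)‖ ≤ m := by
    refine (_root_.norm_sum_le _ _).trans ?_
    simp [norm_pow]
  have h2 := norm_one_add x
  rw [add_comm (1 : ℂ)] at h2
  push_cast
  linarith

theorem psi_sum {ι : Type*} (s : Finset ι) (g : ι → ZMod q) :
    (ZMod.stdAddChar (∑ i ∈ s, g i) : ℂ) = ∏ i ∈ s, (ZMod.stdAddChar (g i) : ℂ) := by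
  classical
  induction s using Finset.induction_on with
  | empty => simp
  | insert a s ha ih => rw [sum_insert ha, prod_insert ha, AddChar.map_add_eq_mul, ih]

/-- orthogonality -/
theorem count (b L : ℕ) (r : ℕ) :
    (q : ℂ) * (((Fintype.piFinset (fun _ : Fin (L - 1) => range b)).filter
      (fun f => free b L f % q = r % q)).card : ℂ) =
    ∑ h : ZMod q, (ZMod.stdAddChar (-(h * (r : ZMod q))) : ℂ) *
      ∏ i : Fin (L - 1), ∑ j ∈ range b,
        (ZMod.stdAddChar (h * ((b ^ (L + (i + 1)) + b ^ (L - (i + 1)) : ℕ) : ZMod q)) : ℂ) ^ j := by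
  classical
  have h1 : ∀ f : Fin (L - 1) → ℕ, ∀ h : ZMod q,
      ∏ i : Fin (L - 1), (ZMod.stdAddChar
        (h * ((b ^ (L + (i + 1)) + b ^ (L - (i + 1)) : ℕ) : ZMod q)) : ℂ) ^ (f i) =
      ZMod.stdAddChar (h * (free b L f : ZMod q)) := by
    intro f h
    have h2 : h * (free b L f : ZMod q) = ∑ i : Fin (L - 1),
        (f i) • (h * ((b ^ (L + (i + 1)) + b ^ (L - (i + 1)) : ℕ) : ZMod q)) := by
      unfold free
      rw [Nat.cast_sum, Finset.mul_sum]
      refine Finset.sum_congr rfl fun i _ => ?_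
      rw [nsmul_eq_mul, Nat.cast_mul]
      ring
    rw [h2, psi_sum]
    refine Finset.prod_congr rfl fun i _ => ?_
    rw [AddChar.map_nsmul_eq_pow]
  simp only [Finset.prod_univ_sum, h1, Finset.mul_sum]
  rw [Finset.sum_comm, Finset.card_filter, Nat.cast_sum, Finset.mul_sum]
  refine Finset.sum_congr rfl fun f _ => ?_
  have h3 : ∀ h : ZMod q, (ZMod.stdAddChar (-(h * (r : ZMod q))) : ℂ) *
      ZMod.stdAddChar (h * (free b L f : ZMod q)) =
      ZMod.stdAddChar (h * ((free b L f : ZMod q) - (r : ZMod q))) := by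
    intro h
    rw [← AddChar.map_add_eq_mul]
    congr 1
    ring
  simp only [h3]
  rw [AddChar.sum_mulShift _ (ZMod.isPrimitive_stdAddChar q)]
  have h4 : (free b L f : ZMod q) - (r : ZMod q) = 0 ↔ free b L f % q = r % q := by
    rw [sub_eq_zero, ZMod.natCast_eq_natCast_iff]
    rfl
  by_cases h5 : free b L f % q = r % q
  · rw [if_pos h5, if_pos (h4.2 h5), ZMod.card]
    simp
  · rw [if_neg h5, if_neg (fun h => h5 (h4.1 h))]
    simp

end char

/-! ### The windows -/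

/-- There are no long intervals with small residues. -/
theorem window {q : ℕ} [NeZero q] (b L : ℕ) (hb : 2 ≤ b) (hq : q.Coprime (2 * b)) (h : ZMod q)
    (hh : h ≠ 0) (J : ℕ) (hJ : q ≤ b ^ J) (c₀ : ℕ) (hc : c₀ + J + 1 ≤ L - 1) :
    ∃ c, c₀ ≤ c ∧ c ≤ c₀ + J + 1 ∧
      (q : ℤ) ≤ (b + 1) ^ 2 * |(h * ((b ^ (L + c) + b ^ (L - c) : ℕ) : ZMod q)).valMinAbs| := by
  by_contra hcon
  push Not at hcon
  set t : ℕ → ℤ := fun c => (h * ((b ^ (L + c) + b ^ (L - c) : ℕ) : ZMod q)).valMinAbs with ht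
  have htc : ∀ c, ((t c : ℤ) : ZMod q) = h * ((b ^ (L + c) + b ^ (L - c) : ℕ) : ZMod q) :=
    fun c => ZMod.coe_valMinAbs _
  have hb0 : (2 : ℤ) ≤ b := by exact_mod_cast hb
  have hqpos : (0 : ℤ) < q := by exact_mod_cast Nat.pos_of_ne_zero (NeZero.ne q)
  -- the recurrence
  have hrec : ∀ c, c₀ ≤ c → c + 2 ≤ c₀ + J + 1 →
      (b : ℤ) * t (c + 2) + b * t c = (b ^ 2 + 1) * t (c + 1) := by
    intro c h1 h2
    have hz : (((b : ℤ) * t (c + 2) + b * t c - (b ^ 2 + 1) * t (c + 1) : ℤ) : ZMod q) = 0 := by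
      push_cast
      rw [htc, htc, htc]
      push_cast
      obtain ⟨e, rfl⟩ : ∃ e, L = c + 2 + e := ⟨L - (c + 2), by omega⟩
      have e1 : c + 2 + e - (c + 2) = e := by omega
      have e2 : c + 2 + e - c = e + 2 := by omega
      have e3 : c + 2 + e - (c + 1) = e + 1 := by omega
      rw [e1, e2, e3]
      ring
    rw [ZMod.intCast_zmod_eq_zero_iff_dvd] at hz
    have hlt : |(b : ℤ) * t (c + 2) + b * t c - (b ^ 2 + 1) * t (c + 1)| < (q : ℤ) := by
      have a1 := hcon c h1 (by omega)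
      have a2 := hcon (c + 1) (by omega) (by omega)
      have a3 := hcon (c + 2) (by omega) (by omega)
      rw [← ht] at *
      have b1 : |(b : ℤ) * t (c + 2) + b * t c - (b ^ 2 + 1) * t (c + 1)| ≤
          b * |t (c + 2)| + b * |t c| + (b ^ 2 + 1) * |t (c + 1)| := by
        refine (abs_sub _ _).trans ?_
        refine add_le_add ((abs_add_le _ _).trans ?_) ?_
        · rw [abs_mul, abs_mul, abs_of_nonneg (by omega : (0 : ℤ) ≤ b)]
        · rw [abs_mul, abs_of_nonneg (by positivity : (0 : ℤ) ≤ (b : ℤ) ^ 2 + 1)]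
      refine lt_of_le_of_lt b1 ?_
      have c1 : ((b : ℤ) + 1) ^ 2 * |t c| < q := a1
      have c2 : ((b : ℤ) + 1) ^ 2 * |t (c + 1)| < q := a2
      have c3 : ((b : ℤ) + 1) ^ 2 * |t (c + 2)| < q := a3
      have d : ((b : ℤ) + 1) ^ 2 * (b * |t (c + 2)| + b * |t c| + (b ^ 2 + 1) * |t (c + 1)|) <
          ((b : ℤ) + 1) ^ 2 * q := by
        nlinarith
      exact lt_of_mul_lt_mul_left d (by positivity)
    have := Int.eq_zero_of_abs_lt_dvd hz hlt
    linarith
  have hsmall : ∀ c, c₀ ≤ c → c ≤ c₀ + J + 1 → ((b : ℤ) + 1) * |t c| < q := by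
    intro c h1 h2
    have a1 : ((b : ℤ) + 1) ^ 2 * |t c| < q := hcon c h1 h2
    have := abs_nonneg (t c)
    nlinarith
  have hbJ : (q : ℤ) ≤ (b : ℤ) ^ J := by exact_mod_cast hJ
  -- `D`
  have hD : ∀ n, n ≤ J → (b : ℤ) * t (c₀ + n + 1) - t (c₀ + n) =
      b ^ n * (b * t (c₀ + 1) - t c₀) := by
    intro n
    induction n with
    | zero => intro _; simp
    | succ n ih =>
      intro hn
      have i1 := ih (by omega)
      have i2 := hrec (c₀ + n) (by omega) (by omega)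
      have e1 : c₀ + (n + 1) + 1 = c₀ + n + 2 := by omega
      have e2 : c₀ + (n + 1) = c₀ + n + 1 := by omega
      rw [e1, e2, pow_succ]
      linear_combination (b : ℤ) * i1 + i2
  have hE : ∀ n, n ≤ J → (b : ℤ) * t c₀ - t (c₀ + 1) =
      b ^ n * (b * t (c₀ + n) - t (c₀ + n + 1)) := by
    intro n
    induction n with
    | zero => intro _; simp
    | succ n ih =>
      intro hn
      have i1 := ih (by omega)
      have i2 := hrec (c₀ + n) (by omega) (by omega)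
      have e1 : c₀ + (n + 1) + 1 = c₀ + n + 2 := by omega
      have e2 : c₀ + (n + 1) = c₀ + n + 1 := by omega
      rw [e1, e2, pow_succ]
      linear_combination i1 + (b : ℤ) ^ n * i2
  have hzero : ∀ u v : ℤ, |u| < q → u = b ^ J * v → v = 0 := by
    intro u v h1 h2
    by_contra hv
    have h3 : 1 ≤ |v| := Int.one_le_abs hv
    rw [h2, abs_mul, abs_of_nonneg (by positivity : (0 : ℤ) ≤ (b : ℤ) ^ J)] at h1
    nlinarith
  have hDs : ∀ c, c₀ ≤ c → c + 1 ≤ c₀ + J + 1 → |(b : ℤ) * t (c + 1) - t c| < q := by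
    intro c h1 h2
    refine lt_of_le_of_lt (abs_sub _ _) ?_
    rw [abs_mul, abs_of_nonneg (by omega : (0 : ℤ) ≤ b)]
    have a1 := hsmall c h1 (by omega)
    have a2 := hsmall (c + 1) (by omega) h2
    have d : ((b : ℤ) + 1) * (b * |t (c + 1)| + |t c|) < ((b : ℤ) + 1) * q := by nlinarith
    exact lt_of_mul_lt_mul_left d (by positivity)
  have hEs : ∀ c, c₀ ≤ c → c + 1 ≤ c₀ + J + 1 → |(b : ℤ) * t c - t (c + 1)| < q := by
    intro c h1 h2
    refine lt_of_le_of_lt (abs_sub _ _) ?_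
    rw [abs_mul, abs_of_nonneg (by omega : (0 : ℤ) ≤ b)]
    have a1 := hsmall c h1 (by omega)
    have a2 := hsmall (c + 1) (by omega) h2
    have d : ((b : ℤ) + 1) * (b * |t c| + |t (c + 1)|) < ((b : ℤ) + 1) * q := by nlinarith
    exact lt_of_mul_lt_mul_left d (by positivity)
  have hD0 : (b : ℤ) * t (c₀ + 1) - t c₀ = 0 :=
    hzero _ _ (hDs (c₀ + J) (by omega) (by omega)) (hD J le_rfl)
  have hEJ : (b : ℤ) * t (c₀ + J) - t (c₀ + J + 1) = 0 :=
    hzero _ _ (hEs c₀ le_rfl (by omega)) (hE J le_rfl)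
  have hE0 : (b : ℤ) * t c₀ - t (c₀ + 1) = 0 := by
    rw [hE J le_rfl, hEJ, mul_zero]
  have ht0 : t c₀ = 0 := by
    have h1 : ((b : ℤ) ^ 2 - 1) * t c₀ = 0 := by linear_combination (b : ℤ) * hE0 + hD0
    rcases mul_eq_zero.1 h1 with h2 | h2
    · nlinarith
    · exact h2
  have ht1 : t (c₀ + 1) = 0 := by linear_combination (b : ℤ) * ht0 - hE0
  -- conclusion
  have hu2 : IsUnit ((2 : ℕ) : ZMod q) :=
    (ZMod.isUnit_iff_coprime 2 q).2 (Nat.Coprime.coprime_mul_right_right hq).symm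
  have hub : IsUnit ((b : ℕ) : ZMod q) :=
    (ZMod.isUnit_iff_coprime b q).2 (Nat.Coprime.coprime_mul_left_right hq).symm
  have e0 : h * ((b ^ (L + c₀) + b ^ (L - c₀) : ℕ) : ZMod q) = 0 := by
    rw [← htc, ht0, Int.cast_zero]
  have e1 : h * ((b ^ (L + (c₀ + 1)) + b ^ (L - (c₀ + 1)) : ℕ) : ZMod q) = 0 := by
    rw [← htc, ht1, Int.cast_zero]
  obtain ⟨e, he⟩ : ∃ e, L = c₀ + 1 + e := ⟨L - (c₀ + 1), by omega⟩
  have l1 : L - c₀ = e + 1 := by omega
  have l2 : L - (c₀ + 1) = e := by omega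
  rw [l1] at e0
  rw [l2] at e1
  push_cast at e0 e1
  have f0 : h * ((b : ZMod q) ^ (2 * c₀) + 1) = 0 := by
    have g1 : ((b : ZMod q) ^ (e + 1)) * (h * ((b : ZMod q) ^ (2 * c₀) + 1)) = 0 := by
      rw [← e0, he]
      ring
    exact ((hub.pow _).mul_right_eq_zero).1 g1
  have f1 : h * ((b : ZMod q) ^ 2 - 1) = 0 := by
    have g1 : ((b : ZMod q) ^ e) * (h * ((b : ZMod q) ^ 2 - 1)) = 0 := by
      have g2 : ((b : ZMod q) ^ e) * (h * ((b : ZMod q) ^ 2 - 1)) =
        b * (h * ((b : ZMod q) ^ (L + c₀) + b ^ (e + 1))) -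
        h * ((b : ZMod q) ^ (L + (c₀ + 1)) + b ^ e) := by ring
      rw [g2, e0, e1, mul_zero, sub_zero]
    exact ((hub.pow _).mul_right_eq_zero).1 g1
  have f2 : ∀ n : ℕ, h * (b : ZMod q) ^ (2 * n) = h := by
    intro n
    induction n with
    | zero => simp
    | succ n ih =>
      have g1 : h * (b : ZMod q) ^ (2 * (n + 1)) =
        (b : ZMod q) ^ (2 * n) * (h * ((b : ZMod q) ^ 2 - 1)) + h * (b : ZMod q) ^ (2 * n) := by
          ring
      rw [g1, f1, mul_zero, zero_add, ih]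
  have f3 : ((2 : ℕ) : ZMod q) * h = 0 := by
    have g1 : ((2 : ℕ) : ZMod q) * h =
        h * ((b : ZMod q) ^ (2 * c₀) + 1) + (h - h * (b : ZMod q) ^ (2 * c₀)) := by
      push_cast
      ring
    rw [g1, f0, f2, sub_self, add_zero]
  exact hh ((hu2.mul_right_eq_zero).1 f3)

/-- the constant -/
noncomputable def rho (b : ℕ) : ℝ := 1 - 4 / (b * (b + 1) ^ 4)

theorem rho_pos (b : ℕ) (hb : 2 ≤ b) : 0 < rho b := by
  have hb0 : (2 : ℝ) ≤ b := by exact_mod_cast hb
  unfold rho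
  have h1 : (4 : ℝ) < b * (b + 1) ^ 4 := by
    have h2 : (1 : ℝ) ≤ b + 1 := by linarith
    have h3 : (3 : ℝ) ^ 4 ≤ ((b : ℝ) + 1) ^ 4 := pow_le_pow_left₀ (by norm_num) (by linarith) 4
    nlinarith
  have h2 : (0 : ℝ) < b * (b + 1) ^ 4 := by linarith
  rw [sub_pos, div_lt_one h2]
  exact h1

theorem rho_lt (b : ℕ) (hb : 2 ≤ b) : rho b < 1 := by
  have hb0 : (2 : ℝ) ≤ b := by exact_mod_cast hb
  unfold rho
  have h2 : (0 : ℝ) < 4 / (b * (b + 1) ^ 4) := by positivity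
  linarith

/-- the bound of the product -/
theorem prod_le {q : ℕ} [NeZero q] (b L : ℕ) (hb : 2 ≤ b) (hq : q.Coprime (2 * b)) (h : ZMod q)
    (hh : h ≠ 0) (J : ℕ) (hJ : q ≤ b ^ J) (n : ℕ) (hn : n * (J + 2) ≤ L - 1) :
    ‖∏ i : Fin (L - 1), ∑ j ∈ range b, (ZMod.stdAddChar
      (h * ((b ^ (L + (i + 1)) + b ^ (L - (i + 1)) : ℕ) : ZMod q)) : ℂ) ^ j‖ ≤
      (b : ℝ) ^ (L - 1) * rho b ^ n := by
  classical
  have hb0 : (2 : ℝ) ≤ b := by exact_mod_cast hb
  have hq0 : (0 : ℝ) < q := by exact_mod_cast Nat.pos_of_ne_zero (NeZero.ne q)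
  set p : Fin (L - 1) → Prop := fun i => (q : ℤ) ≤ (b + 1) ^ 2 *
    |(h * ((b ^ (L + (i + 1)) + b ^ (L - (i + 1)) : ℕ) : ZMod q)).valMinAbs| with hp
  have hfac : ∀ i : Fin (L - 1), ‖∑ j ∈ range b, (ZMod.stdAddChar
      (h * ((b ^ (L + (i + 1)) + b ^ (L - (i + 1)) : ℕ) : ZMod q)) : ℂ) ^ j‖ ≤
      b * (if p i then rho b else 1) := by
    intro i
    by_cases hi : p i
    · rw [if_pos hi]
      refine (norm_S_lt b hb _).trans ?_
      set t := (h * ((b ^ (L + (i + 1)) + b ^ (L - (i + 1)) : ℕ) : ZMod q)).valMinAbs with ht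
      have h1 : (q : ℤ) ≤ (b + 1) ^ 2 * |t| := hi
      have h2 : (q : ℝ) ≤ ((b : ℝ) + 1) ^ 2 * |(t : ℝ)| := by exact_mod_cast h1
      have h3 : 1 / ((b : ℝ) + 1) ^ 2 ≤ |(t : ℝ)| / q := by
        rw [div_le_div_iff₀ (by positivity) hq0]
        linarith
      have h4 : (1 / ((b : ℝ) + 1) ^ 2) ^ 2 ≤ (|(t : ℝ)| / q) ^ 2 :=
        pow_le_pow_left₀ (by positivity) h3 2
      have h6 : (|(t : ℝ)| / q) ^ 2 = ((t : ℝ) / q) ^ 2 := by rw [div_pow, sq_abs, div_pow]
      rw [h6] at h4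
      have h5 : (b : ℝ) * rho b = b - 4 * (1 / ((b : ℝ) + 1) ^ 2) ^ 2 := by
        unfold rho
        field_simp
      rw [h5]
      linarith
    · rw [if_neg hi, mul_one]
      exact norm_S_le b _
  rw [norm_prod]
  refine (Finset.prod_le_prod (fun i _ => norm_nonneg _) fun i _ => hfac i).trans ?_
  rw [Finset.prod_mul_distrib, Finset.prod_const, Finset.card_univ, Fintype.card_fin,
    Finset.prod_ite, Finset.prod_const, Finset.prod_const_one, mul_one]
  refine mul_le_mul_of_nonneg_left ?_ (by positivity)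
  refine pow_le_pow_of_le_one (rho_pos b hb).le (rho_lt b hb).le ?_
  -- the number of the good indices
  have hw : ∀ k : ℕ, k < n → ∃ c, k * (J + 2) + 1 ≤ c ∧ c ≤ k * (J + 2) + 1 + J + 1 ∧
      (q : ℤ) ≤ (b + 1) ^ 2 *
        |(h * ((b ^ (L + c) + b ^ (L - c) : ℕ) : ZMod q)).valMinAbs| := by
    intro k hk
    refine window b L hb hq h hh J hJ _ ?_
    have h1 : (k + 1) * (J + 2) ≤ n * (J + 2) := Nat.mul_le_mul_right _ hk
    have h2 : (k + 1) * (J + 2) = k * (J + 2) + 1 + J + 1 := by ring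
    omega
  choose! c hc1 hc2 hc3 using hw
  have hcL : ∀ k, k < n → c k ≤ L - 1 := by
    intro k hk
    have h1 : (k + 1) * (J + 2) ≤ n * (J + 2) := Nat.mul_le_mul_right _ hk
    have h2 : (k + 1) * (J + 2) = k * (J + 2) + 1 + J + 1 := by ring
    have := hc2 k hk
    omega
  have hcard : (Finset.univ : Finset (Fin n)).card ≤ (Finset.univ.filter p).card := by
    refine Finset.card_le_card_of_injOn (fun k : Fin n => (⟨c k - 1, by
      have h1 := hcL k k.2
      have h2 := hc1 k k.2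
      omega⟩ : Fin (L - 1))) ?_ ?_
    · intro k _
      rw [Finset.mem_coe, Finset.mem_filter]
      refine ⟨Finset.mem_univ _, ?_⟩
      have h1 := hc3 k k.2
      have h2 : c k - 1 + 1 = c k := by
        have := hc1 k k.2
        omega
      show (q : ℤ) ≤ (b + 1) ^ 2 * |(h * ((b ^ (L + (c k - 1 + 1)) + b ^ (L - (c k - 1 + 1)) : ℕ) :
        ZMod q)).valMinAbs|
      rw [h2]
      exact h1
    · intro k _ k' _ hkk
      have h1 : c k - 1 = c k' - 1 := congrArg Fin.val hkk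
      have a1 := hc1 k k.2
      have a2 := hc2 k k.2
      have b1 := hc1 k' k'.2
      have b2 := hc2 k' k'.2
      have e1 : (c k - 1) / (J + 2) = k := by
        refine Nat.div_eq_of_lt_le (by omega) ?_
        rw [add_mul]
        omega
      have e2 : (c k' - 1) / (J + 2) = k' := by
        refine Nat.div_eq_of_lt_le (by omega) ?_
        rw [add_mul]
        omega
      apply Fin.ext
      rw [← e1, ← e2, h1]
  rw [Finset.card_univ, Fintype.card_fin] at hcard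
  exact hcard

/-- the deviation -/
theorem dev (b L : ℕ) (hb : 2 ≤ b) (q : ℕ) (hq1 : 1 ≤ q) (hq : q.Coprime (2 * b))
    (J : ℕ) (hJ : q ≤ b ^ J) (n : ℕ) (hn : n * (J + 2) ≤ L - 1) (r : ℕ) :
    |((((Fintype.piFinset (fun _ : Fin (L - 1) => range b)).filter
      (fun f => free b L f % q = r % q)).card : ℕ) : ℝ) - (b : ℝ) ^ (L - 1) / q| ≤
      (b : ℝ) ^ (L - 1) * rho b ^ n := by
  classical
  have hne : NeZero q := ⟨by omega⟩
  have hq0 : (0 : ℝ) < q := by exact_mod_cast hq1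
  set N := ((Fintype.piFinset (fun _ : Fin (L - 1) => range b)).filter
      (fun f => free b L f % q = r % q)).card with hN
  have h1 := count (q := q) b L r
  rw [← hN, ← Finset.add_sum_erase _ _ (Finset.mem_univ (0 : ZMod q))] at h1
  simp only [zero_mul, neg_zero, AddChar.map_zero_eq_one, one_pow, Finset.sum_const,
    Finset.card_range, Finset.prod_const, Finset.card_univ, Fintype.card_fin, nsmul_eq_mul,
    mul_one, one_mul] at h1
  have h2 : ‖(q : ℂ) * (N : ℂ) - (b : ℂ) ^ (L - 1)‖ ≤ q * ((b : ℝ) ^ (L - 1) * rho b ^ n) := by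
    rw [h1, add_sub_cancel_left]
    refine (_root_.norm_sum_le _ _).trans ?_
    have h3 : ∀ h ∈ (Finset.univ.erase (0 : ZMod q)),
        ‖(ZMod.stdAddChar (-(h * (r : ZMod q))) : ℂ) *
      ∏ i : Fin (L - 1), ∑ j ∈ range b,
        (ZMod.stdAddChar (h * ((b ^ (L + (i + 1)) + b ^ (L - (i + 1)) : ℕ) : ZMod q)) : ℂ) ^ j‖ ≤
        (b : ℝ) ^ (L - 1) * rho b ^ n := by
      intro h hh
      rw [norm_mul, norm_psi, one_mul]
      exact prod_le b L hb hq h (Finset.ne_of_mem_erase hh) J hJ n hn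
    refine (Finset.sum_le_card_nsmul _ _ _ h3).trans ?_
    rw [nsmul_eq_mul]
    refine mul_le_mul_of_nonneg_right ?_ ?_
    · have h4 : (Finset.univ.erase (0 : ZMod q)).card ≤ q := by
        refine (Finset.card_le_univ _).trans ?_
        rw [ZMod.card]
      exact_mod_cast h4
    · have := (rho_pos b hb).le
      positivity
  have h3 : ‖(q : ℂ) * (N : ℂ) - (b : ℂ) ^ (L - 1)‖ = |(q : ℝ) * (N : ℝ) - (b : ℝ) ^ (L - 1)| := by
    rw [← Real.norm_eq_abs, ← Complex.norm_real]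
    congr 1
    push_cast
    rfl
  rw [h3] at h2
  have h4 : (N : ℝ) - (b : ℝ) ^ (L - 1) / q = ((q : ℝ) * (N : ℝ) - (b : ℝ) ^ (L - 1)) / q := by
    field_simp
  rw [h4, abs_div, abs_of_pos hq0, div_le_iff₀ hq0]
  linarith

/-- asymptotics -/
theorem asym (b : ℕ) (hb : 2 ≤ b) (K A : ℕ) : ∀ᶠ L : ℕ in atTop,
    rho b ^ ((L - 1) / (Nat.clog b (L ^ K) + 2)) ≤ 1 / (L : ℝ) ^ A := by
  have hρ0 := rho_pos b hb
  have hρ1 := rho_lt b hb
  set c : ℝ := -Real.log (rho b) with hc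
  have hc0 : 0 < c := by
    rw [hc, neg_pos]
    exact Real.log_neg hρ0 hρ1
  have hl2 : 0 < Real.log 2 := Real.log_pos (by norm_num)
  set C₁ : ℝ := K / Real.log 2 with hC₁
  have hC₁0 : 0 ≤ C₁ := by positivity
  set M : ℝ := (A / c + 1) * (C₁ + 3) + 1 with hM
  have hM0 : 0 < M := by positivity
  have h1 : ∀ᶠ x : ℝ in atTop, M * Real.log x ^ 2 ≤ x := by
    have h2 := (Real.isLittleO_pow_log_id_atTop (n := 2)).bound (c := 1 / M) (by positivity)
    filter_upwards [h2, eventually_ge_atTop (1 : ℝ)] with x hx hx1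
    rw [Real.norm_eq_abs, Real.norm_eq_abs, abs_of_nonneg (sq_nonneg _), id,
      abs_of_nonneg (by linarith), div_mul_eq_mul_div, one_mul, le_div_iff₀ hM0] at hx
    linarith
  have h2 := tendsto_natCast_atTop_atTop (R := ℝ) |>.eventually h1
  filter_upwards [h2, eventually_ge_atTop 3] with L hL hL3
  have hL0 : (3 : ℝ) ≤ L := by exact_mod_cast hL3
  set u : ℝ := Real.log L with hu
  have hu1 : 1 < u := by
    rw [hu, Real.lt_log_iff_exp_lt (by linarith)]
    exact (Real.exp_one_lt_d9.trans (by norm_num)).trans_le hL0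
  -- the bound of `J`
  set J := Nat.clog b (L ^ K) with hJ
  have hJ1 : (J : ℝ) ≤ C₁ * u + 1 := by
    rcases Nat.eq_zero_or_pos J with h3 | h3
    · rw [h3, Nat.cast_zero]
      positivity
    · have h4 : 1 < L ^ K := by
        by_contra h5
        push Not at h5
        rw [hJ, Nat.clog_of_right_le_one h5] at h3
        exact lt_irrefl _ h3
      have h6 := Nat.pow_pred_clog_lt_self (by omega : 1 < b) h4
      have h7 : 2 ^ (J - 1) < L ^ K := lt_of_le_of_lt (Nat.pow_le_pow_left hb _) h6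
      have h8 : (2 : ℝ) ^ (J - 1) < (L : ℝ) ^ K := by exact_mod_cast h7
      have h9 := Real.log_lt_log (by positivity) h8
      rw [Real.log_pow, Real.log_pow, Nat.cast_sub (by omega), Nat.cast_one, ← hu] at h9
      have h10 : (J : ℝ) - 1 ≤ C₁ * u := by
        rw [hC₁, div_mul_eq_mul_div, le_div_iff₀ hl2]
        exact h9.le
      linarith
  set n := (L - 1) / (J + 2) with hn
  have hn1 : (L : ℝ) - 1 ≤ (n + 1) * (J + 2) := by
    have h3 : L - 1 < (n + 1) * (J + 2) := by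
      rw [hn]
      exact Nat.lt_mul_of_div_lt (Nat.lt_succ_self _) (by omega)
    have h4 : (((L - 1 : ℕ) : ℕ) : ℝ) ≤ (((n + 1) * (J + 2) : ℕ) : ℝ) := by exact_mod_cast h3.le
    rw [Nat.cast_sub (by omega)] at h4
    push_cast at h4
    exact h4
  have hn2 : A * u ≤ n * c := by
    by_contra hcon
    push Not at hcon
    have h3 : (n : ℝ) < A / c * u := by
      rw [div_mul_eq_mul_div, lt_div_iff₀ hc0]
      exact hcon
    have h4 : (L : ℝ) - 1 ≤ (A / c * u + 1) * (C₁ * u + 3) := by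
      refine hn1.trans ?_
      refine mul_le_mul (by linarith) (by linarith) (by positivity) ?_
      positivity
    have h5 : (A / c * u + 1) * (C₁ * u + 3) ≤ ((A / c + 1) * u) * ((C₁ + 3) * u) := by
      refine mul_le_mul (by nlinarith) (by nlinarith) (by positivity) (by positivity)
    have h6 : ((A / c + 1) * u) * ((C₁ + 3) * u) = (M - 1) * u ^ 2 := by
      rw [hM]
      ring
    have h7 : M * u ^ 2 ≤ L := hL
    rw [h6] at h5
    nlinarith
  rw [one_div, ← Real.exp_log (by positivity : (0 : ℝ) < ((L : ℝ) ^ A)⁻¹), Real.log_inv,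
    Real.log_pow, ← hu, ← Real.exp_log (pow_pos hρ0 n), Real.log_pow]
  apply Real.exp_le_exp.2
  have : (n : ℝ) * Real.log (rho b) = -(n * c) := by rw [hc]; ring
  rw [this]
  linarith

end Pool.Agent.H559.PB.Four

namespace Pool.Agent.H559.PB

theorem t_four : S_four := by
  intro b hb K A
  filter_upwards [Four.asym b hb K A] with L hL q hq1 hqL hq r
  have hJ : q ≤ b ^ Nat.clog b (L ^ K) := hqL.trans (Nat.le_pow_clog (by omega) _)
  refine (Four.dev b L hb q hq1 hq _ hJ _ (Nat.div_mul_le_self _ _) r).trans ?_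
  rw [div_eq_mul_one_div ((b : ℝ) ^ (L - 1))]
  exact mul_le_mul_of_nonneg_left hL (by positivity)

end Pool.Agent.H559.PB
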