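import Pool.Agent.H559.PB.Stm

set_option autoImplicit false

/-! # Parametrization of the palindromes in base `b` by their digits -/

open Finset

namespace Pool.Agent.H559.PB

namespace Par

theorem sum_lt {b : ℕ} (d : ℕ → ℕ) (n : ℕ) (hd : ∀ k < n, d k < b) :
    ∑ k ∈ range n, d k * b ^ k < b ^ n := by
  induction n with
  | zero => simp
  | succ n ih =>
    rw [sum_range_succ, pow_succ]
    have h1 := ih (fun k hk => hd k (hk.trans (Nat.lt_succ_self n)))
    have h2 := hd n (Nat.lt_succ_self n)
    have h3 : (d n + 1) * b ^ n ≤ b * b ^ n := Nat.mul_le_mul_right _ h2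
    nlinarith

theorem shift {b : ℕ} (d : ℕ → ℕ) (n : ℕ) : ∑ j ∈ range (n + 1), d j * b ^ j =
    b * ∑ j ∈ range n, d (j + 1) * b ^ j + d 0 := by
  rw [sum_range_succ', pow_zero, mul_one, mul_sum]
  congr 1
  exact sum_congr rfl fun j _ => by ring

theorem digit {b : ℕ} (hb : 2 ≤ b) (k : ℕ) : ∀ (d : ℕ → ℕ) (n : ℕ), (∀ j < n, d j < b) → k < n →
    (∑ j ∈ range n, d j * b ^ j) / b ^ k % b = d k := by
  induction k with
  | zero =>
    intro d n hd hk
    obtain ⟨n, rfl⟩ : ∃ n', n = n' + 1 := ⟨n - 1, by omega⟩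
    rw [shift, pow_zero, Nat.div_one, Nat.mul_add_mod, Nat.mod_eq_of_lt (hd 0 hk)]
  | succ k ih =>
    intro d n hd hk
    obtain ⟨n, rfl⟩ : ∃ n', n = n' + 1 := ⟨n - 1, by omega⟩
    rw [shift, pow_succ', ← Nat.div_div_eq_div_mul, Nat.mul_add_div (by omega),
      Nat.div_eq_of_lt (hd 0 (by omega)), add_zero]
    exact ih (fun j => d (j + 1)) n (fun j hj => hd (j + 1) (by omega)) (by omega)

theorem expand {b : ℕ} (hb : 2 ≤ b) (n : ℕ) : ∀ v, v < b ^ n →
    ∑ k ∈ range n, (v / b ^ k % b) * b ^ k = v := by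
  induction n with
  | zero =>
    intro v hv
    rw [pow_zero] at hv
    rw [range_zero, sum_empty]
    omega
  | succ n ih =>
    intro v hv
    have h1 : v / b < b ^ n := by
      rw [Nat.div_lt_iff_lt_mul (by omega), ← pow_succ]
      exact hv
    have h2 := ih (v / b) h1
    rw [shift (fun k => v / b ^ k % b) n, pow_zero, Nat.div_one]
    have h3 : ∑ j ∈ range n, (v / b ^ (j + 1) % b) * b ^ j = v / b := by
      conv_rhs => rw [← h2]
      refine sum_congr rfl fun k _ => ?_
      rw [pow_succ', Nat.div_div_eq_div_mul]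
    rw [h3]
    exact Nat.div_add_mod v b

theorem len {b : ℕ} (hb : 2 ≤ b) (n v : ℕ) (h1 : b ^ n ≤ v) (h2 : v < b ^ (n + 1)) :
    (Nat.digits b v).length = n + 1 := by
  have h0 : 0 < b ^ n := pow_pos (by omega) n
  rw [Nat.length_digits b v (by omega) (by omega), Nat.log_eq_of_pow_le_of_lt_pow h1 h2]

theorem pal_iff {b : ℕ} (hb : 2 ≤ b) (n v : ℕ) (h1 : b ^ n ≤ v) (h2 : v < b ^ (n + 1)) :
    (Nat.digits b v).reverse = Nat.digits b v ↔
      ∀ k ≤ n, v / b ^ k % b = v / b ^ (n - k) % b := by
  have hl := len hb n v h1 h2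
  have hg : ∀ (k : ℕ) (hk : k < (Nat.digits b v).length),
      (Nat.digits b v)[k] = v / b ^ k % b := by
    intro k hk
    rw [← Nat.getD_digits v k hb, List.getD_eq_getElem _ _ hk]
  constructor
  · intro h k hk
    have hk1 : k < (Nat.digits b v).length := by omega
    have hk2 : n - k < (Nat.digits b v).length := by omega
    have hk3 : k < (Nat.digits b v).reverse.length := by rw [List.length_reverse]; omega
    have h3 : (Nat.digits b v).reverse[k] = (Nat.digits b v)[k] := by
      simp only [h]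
    rw [List.getElem_reverse] at h3
    rw [← hg k hk1, ← hg (n - k) hk2, ← h3]
    congr 1
    omega
  · intro h
    apply List.ext_getElem
    · rw [List.length_reverse]
    · intro i hi1 hi2
      rw [List.getElem_reverse, hg, hg, h i (by omega)]
      congr 3
      omega

theorem split (L : ℕ) : ∀ g : ℕ → ℕ, ∑ k ∈ range (2 * (L + 1) + 1), g k =
    g 0 + g (2 * (L + 1)) + g (L + 1) +
      ∑ i ∈ range L, (g (L + 1 + (i + 1)) + g (L + 1 - (i + 1))) := by
  induction L with
  | zero =>
    intro g
    simp only [sum_range_succ, range_zero, sum_empty]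
    ring
  | succ L ih =>
    intro g
    have e : 2 * (L + 1 + 1) + 1 = (2 * (L + 1) + 1) + 1 + 1 := by ring
    rw [e, sum_range_succ, sum_range_succ', ih (fun k => g (k + 1)), sum_range_succ]
    have e1 : ∑ i ∈ range L, (g (L + 1 + (i + 1) + 1) + g (L + 1 - (i + 1) + 1)) =
        ∑ i ∈ range L, (g (L + 1 + 1 + (i + 1)) + g (L + 1 + 1 - (i + 1))) := by
      refine sum_congr rfl fun i hi => ?_
      have := mem_range.1 hi
      rw [show L + 1 + (i + 1) + 1 = L + 1 + 1 + (i + 1) by omega,
        show L + 1 - (i + 1) + 1 = L + 1 + 1 - (i + 1) by omega]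
    rw [e1]
    have e2 : L + 1 + 1 - (L + 1) = 0 + 1 := by omega
    have e3 : L + 1 + 1 + (L + 1) = 2 * (L + 1) + 1 := by omega
    have e4 : 2 * (L + 1 + 1) = 2 * (L + 1) + 1 + 1 := by omega
    rw [e2, e3, e4]
    ring

/-- the digit at distance `j` from the middle -/
def ee (L l m : ℕ) (f : Fin (L - 1) → ℕ) (j : ℕ) : ℕ :=
  if j = 0 then m else if h : j - 1 < L - 1 then f ⟨j - 1, h⟩ else l

/-- distance from the middle -/
def dl (L k : ℕ) : ℕ := (k - L) + (L - k)

theorem ee_lt {b L l m : ℕ} (hl : l < b) (hm : m < b) {f : Fin (L - 1) → ℕ}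
    (hf : ∀ i, f i < b) (j : ℕ) : ee L l m f j < b := by
  unfold ee
  split_ifs
  · exact hm
  · exact hf _
  · exact hl

theorem val (b L l m : ℕ) (hL : 1 ≤ L) (f : Fin (L - 1) → ℕ) :
    l * (b ^ (2 * L) + 1) + m * b ^ L + free b L f =
      ∑ k ∈ range (2 * L + 1), ee L l m f (dl L k) * b ^ k := by
  have h1 : ∑ k ∈ range (2 * L + 1), ee L l m f (dl L k) * b ^ k =
      ee L l m f (dl L 0) * b ^ 0 + ee L l m f (dl L (2 * L)) * b ^ (2 * L) +
        ee L l m f (dl L L) * b ^ L +
      ∑ i ∈ range (L - 1), (ee L l m f (dl L (L + (i + 1))) * b ^ (L + (i + 1)) +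
        ee L l m f (dl L (L - (i + 1))) * b ^ (L - (i + 1))) := by
    have h2 := split (L - 1) (fun k => ee L l m f (dl L k) * b ^ k)
    rw [Nat.sub_add_cancel hL] at h2
    exact h2
  have hd0 : dl L 0 = L := by unfold dl; omega
  have hd2 : dl L (2 * L) = L := by unfold dl; omega
  have hdL : dl L L = 0 := by unfold dl; omega
  have heL : ee L l m f L = l := by
    unfold ee
    rw [if_neg (by omega), dif_neg (by omega)]
  have he0 : ee L l m f 0 = m := if_pos rfl
  rw [h1, hd0, hd2, hdL, heL, he0, pow_zero, mul_one]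
  have h3 : free b L f = ∑ i ∈ range (L - 1),
      (ee L l m f (dl L (L + (i + 1))) * b ^ (L + (i + 1)) +
        ee L l m f (dl L (L - (i + 1))) * b ^ (L - (i + 1))) := by
    rw [Finset.sum_range]
    unfold free
    refine sum_congr rfl fun i _ => ?_
    have hi := i.isLt
    have e1 : dl L (L + ((i : ℕ) + 1)) = (i : ℕ) + 1 := by unfold dl; omega
    have e2 : dl L (L - ((i : ℕ) + 1)) = (i : ℕ) + 1 := by unfold dl; omega
    have e3 : ee L l m f ((i : ℕ) + 1) = f i := by
      unfold ee
      rw [if_neg (by omega), dif_pos (by omega)]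
      rfl
    rw [e1, e2, e3, mul_add]
  rw [h3]
  ring

theorem digits_val {b L l m : ℕ} (hb : 2 ≤ b) (hL : 1 ≤ L) (hl : l < b) (hm : m < b)
    {f : Fin (L - 1) → ℕ} (hf : ∀ i, f i < b) (k : ℕ) (hk : k < 2 * L + 1) :
    (l * (b ^ (2 * L) + 1) + m * b ^ L + free b L f) / b ^ k % b = ee L l m f (dl L k) := by
  rw [val b L l m hL f]
  exact digit hb k (fun k => ee L l m f (dl L k)) _ (fun j _ => ee_lt hl hm hf _) hk

end Par

open Par in
theorem t_par : S_par := by
  intro b L l m hb hL hl1 hl hm
  have hmem : ∀ f : Fin (L - 1) → ℕ, f ∈ Fintype.piFinset (fun _ : Fin (L - 1) => range b) ↔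
      ∀ i, f i < b := by
    intro f
    simp only [Fintype.mem_piFinset, mem_range]
  refine ⟨?_, ?_⟩
  · ext v
    rw [mem_filter, mem_image]
    unfold palb
    rw [mem_filter, mem_range]
    constructor
    · rintro ⟨⟨hv, hv1, hpal⟩, hvl, hvm⟩
      have hp := (pal_iff hb (2 * L) v hv1 hv).1 hpal
      refine ⟨fun i => v / b ^ (L + ((i : ℕ) + 1)) % b,
        (hmem _).2 fun i => Nat.mod_lt _ (by omega), ?_⟩
      rw [val b L l m hL]
      rw [← expand hb (2 * L + 1) v hv]
      refine sum_congr rfl fun k hk => ?_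
      rw [expand hb (2 * L + 1) v hv]
      congr 1
      have hk := mem_range.1 hk
      -- the digits
      have key : ∀ k, L ≤ k → k ≤ 2 * L →
          ee L l m (fun i => v / b ^ (L + ((i : ℕ) + 1)) % b) (k - L) = v / b ^ k % b := by
        intro k hk1 hk2
        unfold ee
        split_ifs with h1 h2
        · rw [show k = L by omega]
          exact hvm.symm
        · show v / b ^ (L + ((k - L - 1) + 1)) % b = v / b ^ k % b
          rw [show L + ((k - L - 1) + 1) = k by omega]
        · have h3 : k = 2 * L := by omega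
          have h4 := hp k hk2
          rw [h3, Nat.sub_self, pow_zero, Nat.div_one, hvl] at h4
          rw [h3, h4]
      rcases le_total L k with h | h
      · rw [← key k h (by omega)]
        congr 1
        unfold dl
        omega
      · rw [hp k (by omega), ← key (2 * L - k) (by omega) (by omega)]
        congr 1
        unfold dl
        omega
    · rintro ⟨f, hf, rfl⟩
      rw [hmem] at hf
      have hlt : l * (b ^ (2 * L) + 1) + m * b ^ L + free b L f < b ^ (2 * L + 1) := by
        rw [val b L l m hL f]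
        exact sum_lt (fun k => ee L l m f (dl L k)) _ (fun j _ => ee_lt hl hm hf _)
      have hge : b ^ (2 * L) ≤ l * (b ^ (2 * L) + 1) + m * b ^ L + free b L f := by
        have h1 : 1 * b ^ (2 * L) ≤ l * b ^ (2 * L) := Nat.mul_le_mul_right _ hl1
        have h2 : l * (b ^ (2 * L) + 1) = l * b ^ (2 * L) + l := by ring
        rw [h2, add_assoc, add_assoc]
        rw [one_mul] at h1
        exact h1.trans (Nat.le_add_right _ _)
      refine ⟨⟨hlt, hge, ?_⟩, ?_, ?_⟩
      · rw [pal_iff hb (2 * L) _ hge hlt]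
        intro k hk
        rw [digits_val hb hL hl hm hf k (by omega),
          digits_val hb hL hl hm hf (2 * L - k) (by omega)]
        congr 1
        unfold dl
        omega
      · have h1 := digits_val hb hL hl hm hf 0 (by omega)
        rw [pow_zero, Nat.div_one] at h1
        rw [h1]
        unfold ee dl
        rw [if_neg (by omega), dif_neg (by omega)]
      · rw [digits_val hb hL hl hm hf L (by omega)]
        unfold ee dl
        rw [if_pos (by omega)]
  · intro f hf f' hf' h
    rw [mem_coe, hmem] at hf hf'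
    funext i
    have hi := i.isLt
    have h1 := digits_val hb hL hl hm hf (L + (i + 1)) (by omega)
    have h2 := digits_val hb hL hl hm hf' (L + (i + 1)) (by omega)
    have h3 : l * (b ^ (2 * L) + 1) + m * b ^ L + free b L f =
      l * (b ^ (2 * L) + 1) + m * b ^ L + free b L f' := h
    rw [h3, h2] at h1
    have e1 : dl L (L + ((i : ℕ) + 1)) = (i : ℕ) + 1 := by unfold dl; omega
    have e3 : ∀ f : Fin (L - 1) → ℕ, ee L l m f ((i : ℕ) + 1) = f i := by
      intro f
      unfold ee
      rw [if_neg (by omega), dif_pos (by omega)]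
      rfl
    rw [e1, e3, e3] at h1
    exact h1.symm

end Pool.Agent.H559.PB
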