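import Pool.Agent.H559.PA.PalF
import Pool.Agent.H559.PB.Dist
import Pool.Agent.H559.PB.Par
import Pool.Agent.H559.PB.Four

set_option autoImplicit false

/-! # The palindromes in every base in the random sieve: the law for the numbers of digits -/

open Finset Filter Topology MeasureTheory ProbabilityTheory
open Pool.Agent.T2H32.BF (Model)
open Pool.Agent.H559.HY (RS WW)
open Pool.Agent.H559.BS (Limit log_top)
open Pool.Agent.H559.PA (Dat no_small sparse)

namespace Pool.Agent.H559.PB

theorem distb : S_distb := t_distb t_four t_par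

/-- the palindromes with `2 L + 1` digits with outer digits `l` and middle digit `m` -/
def SB (b l m L : ℕ) : Finset ℕ := (palb b L).filter (fun v => v % b = l ∧ v / b ^ L % b = m)

/-- the admissible outer and middle digits -/
def TB (b : ℕ) : Finset (ℕ × ℕ) :=
  ((range b).filter (fun l => b.Coprime l)) ×ˢ ((range b).filter (fun m => b % 2 = 1 → m % 2 = 1))

theorem card_TB (b : ℕ) (hb : 2 ≤ b) : (TB b).card = (b / 2) * (2 * b).totient := by
  unfold TB
  rw [card_product]
  have h1 : ((range b).filter (fun l => b.Coprime l)).card = b.totient := by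
    rw [Nat.totient_eq_card_coprime]
  rw [h1]
  rcases Nat.even_or_odd b with h2 | h2
  · have h3 : b % 2 = 0 := Nat.even_iff.1 h2
    have h4 : (range b).filter (fun m => b % 2 = 1 → m % 2 = 1) = range b := by
      apply filter_true_of_mem
      intro m _ h
      omega
    rw [h4, card_range, Nat.totient_mul_of_prime_of_dvd Nat.prime_two (Nat.dvd_of_mod_eq_zero h3)]
    have h5 : b / 2 * 2 = b := by omega
    calc b.totient * b = b.totient * (b / 2 * 2) := by rw [h5]
      _ = b / 2 * (2 * b.totient) := by ring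
  · have h3 : b % 2 = 1 := Nat.odd_iff.1 h2
    have h4 : ((range b).filter (fun m => b % 2 = 1 → m % 2 = 1)) = (range (b / 2)).image (fun i => 2 * i + 1) := by
      ext m
      simp only [mem_filter, mem_range, mem_image]
      constructor
      · rintro ⟨a1, a2⟩
        have := a2 h3
        exact ⟨m / 2, by omega, by omega⟩
      · rintro ⟨i, a1, a2⟩
        exact ⟨by omega, fun _ => by omega⟩
    rw [h4, card_image_of_injective _ (fun x y h => by simpa using h), card_range,
      Nat.totient_mul_of_prime_of_not_dvd Nat.prime_two (by omega)]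
    simp only [Nat.add_one_sub_one, one_mul]
    ring

/-- the parity of a palindrome with an odd number of digits in an odd base is that of the middle digit -/
theorem parity (b L l m v : ℕ) (hb : 2 ≤ b) (hL : 1 ≤ L) (hl : 1 ≤ l) (hl2 : l < b) (hm : m < b) (hbo : b % 2 = 1)
    (hv : v ∈ SB b l m L) : v % 2 = m % 2 := by
  unfold SB at hv
  rw [(t_par b L l m hb hL hl hl2 hm).1, mem_image] at hv
  obtain ⟨f, _, rfl⟩ := hv
  have ho : ∀ k : ℕ, b ^ k % 2 = 1 := fun k => by rw [Nat.pow_mod, hbo]; simp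
  have h1 : (l * (b ^ (2 * L) + 1)) % 2 = 0 := by
    have h2 : (b ^ (2 * L) + 1) % 2 = 0 := by have := ho (2 * L); omega
    rw [Nat.mul_mod, h2]; simp
  have h3 : (m * b ^ L) % 2 = m % 2 := by
    rw [Nat.mul_mod, ho]; simp
  have h4 : free b L f % 2 = 0 := by
    unfold free
    rw [Finset.sum_nat_mod]
    have h5 : ∀ i : Fin (L - 1), (f i * (b ^ (L + (i + 1)) + b ^ (L - (i + 1)))) % 2 = 0 := by
      intro i
      have h6 : (b ^ (L + (i.1 + 1)) + b ^ (L - (i.1 + 1))) % 2 = 0 := by
        have a1 := ho (L + (i.1 + 1))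
        have a2 := ho (L - (i.1 + 1))
        omega
      rw [Nat.mul_mod, h6]; simp
    simp [h5]
  omega

theorem big (b : ℕ) (hb : 2 ≤ b) (K : ℕ) : ∀ᶠ L : ℕ in atTop, (L : ℝ) ^ K ≤ (b : ℝ) ^ (L - 1) := by
  have hb1 : (1 : ℝ) < b := by exact_mod_cast (by omega : 1 < b)
  have hb0 : (0 : ℝ) < b := by linarith
  filter_upwards [(tendsto_pow_const_div_const_pow_of_one_lt K hb1).eventually
    (gt_mem_nhds (show (0 : ℝ) < 1 / b by positivity)), eventually_ge_atTop 1] with L h1 h2
  have hp : (0 : ℝ) < (b : ℝ) ^ L := by positivity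
  rw [div_lt_iff₀ hp] at h1
  have e : (b : ℝ) ^ L = b ^ (L - 1) * b := by
    rw [← pow_succ]
    congr 1
    omega
  rw [e] at h1
  have : 1 / (b : ℝ) * (b ^ (L - 1) * b) = b ^ (L - 1) := by field_simp
  linarith

theorem DB (b l m : ℕ) (hb : 2 ≤ b) (h : (l, m) ∈ TB b) :
    Dat (SB b l m) (fun L => (b : ℝ) ^ (L - 1)) (fun L => b ^ (2 * L)) (fun L => b ^ (2 * L + 1)) (2 * b)
      (2 * Real.log b) where
  l0 := by
    have := Real.log_pos (show (1 : ℝ) < b by exact_mod_cast (by omega : 1 < b))
    positivity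
  q00 := by omega
  n1 := by
    refine tendsto_const_nhds.congr' ?_
    filter_upwards [eventually_ge_atTop 1] with L hL
    have hL0 : (0 : ℝ) < L := by exact_mod_cast hL
    push_cast
    rw [Real.log_pow]
    push_cast
    field_simp
  n2 := by
    have h1 : Tendsto (fun L : ℕ => 2 * Real.log b + Real.log b * (1 / (L : ℝ))) atTop
        (𝓝 (2 * Real.log b + Real.log b * 0)) :=
      tendsto_const_nhds.add (tendsto_const_nhds.mul (tendsto_one_div_atTop_nhds_zero_nat (𝕜 := ℝ)))
    rw [mul_zero, add_zero] at h1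
    refine h1.congr' ?_
    filter_upwards [eventually_ge_atTop 1] with L hL
    have hL0 : (0 : ℝ) < L := by exact_mod_cast hL
    push_cast
    rw [Real.log_pow]
    push_cast
    field_simp
  mem := by
    filter_upwards [eventually_ge_atTop 1] with L hL v hv
    unfold TB at h
    rw [mem_product, mem_filter, mem_filter, mem_range, mem_range] at h
    obtain ⟨⟨h1, h2⟩, h3, h4⟩ := h
    dsimp only at h1 h2 h3 h4
    have hl1 : 1 ≤ l := by
      rcases Nat.eq_zero_or_pos l with rfl | h5
      · rw [Nat.coprime_zero_right] at h2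
        omega
      · exact h5
    have hv' := hv
    unfold SB palb at hv'
    rw [mem_filter, mem_filter, mem_range] at hv'
    refine ⟨hv'.1.2.1, hv'.1.1.le, ?_⟩
    have hc : v.Coprime b := by
      have h5 : v.gcd b = (v % b).gcd b := by rw [Nat.gcd_comm v b, Nat.gcd_rec]
      rw [Nat.Coprime, h5, hv'.2.1]
      exact h2.symm
    have ho : v.Coprime 2 := by
      rw [Nat.coprime_two_right]
      rw [Nat.odd_iff]
      rcases Nat.mod_two_eq_zero_or_one b with hbe | hbo
      · by_contra hcon
        have h5 : 2 ∣ v := by omega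
        have h6 : 2 ∣ b := by omega
        have h7 := Nat.dvd_gcd h5 h6
        rw [hc.gcd_eq_one] at h7
        omega
      · rw [parity b L l m v hb hL hl1 h1 h3 hbo hv, h4 hbo]
    exact Nat.Coprime.mul_right ho hc
  big := big b hb
  dist := by
    unfold TB at h
    rw [mem_product, mem_filter, mem_filter, mem_range, mem_range] at h
    obtain ⟨⟨h1, h2⟩, h3, h4⟩ := h
    dsimp only at h1 h2 h3 h4
    have hl1 : 1 ≤ l := by
      rcases Nat.eq_zero_or_pos l with rfl | h5
      · rw [Nat.coprime_zero_right] at h2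
        omega
      · exact h5
    intro K A
    filter_upwards [distb b hb K (A + K), eventually_ge_atTop 1] with L hL hL1 r
    have hL0 : (0 : ℝ) < L := by exact_mod_cast hL1
    have h5 : ∀ q ∈ (Icc 1 (L ^ K)).filter (fun q => q.Coprime (2 * b)),
        |(((SB b l m L).filter (fun v => v % q = r q % q)).card : ℝ) - (b : ℝ) ^ (L - 1) / q| ≤
          (b : ℝ) ^ (L - 1) / (L : ℝ) ^ (A + K) := by
      intro q hq
      rw [mem_filter, mem_Icc] at hq
      have := hL l m hl1 h1 h3 q hq.1.1 hq.1.2 hq.2 (r q)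
      unfold SB
      rw [filter_filter]
      exact this
    refine (sum_le_card_nsmul _ _ _ h5).trans ?_
    rw [nsmul_eq_mul]
    have h6 : ((((Icc 1 (L ^ K)).filter (fun q => q.Coprime (2 * b))).card : ℕ) : ℝ) ≤ (L : ℝ) ^ K := by
      have := card_filter_le (Icc 1 (L ^ K)) (fun q => q.Coprime (2 * b))
      rw [Nat.card_Icc, Nat.add_sub_cancel] at this
      exact_mod_cast this
    have h7 : (0 : ℝ) ≤ (b : ℝ) ^ (L - 1) / (L : ℝ) ^ (A + K) := by positivity
    refine (mul_le_mul_of_nonneg_right h6 h7).trans (le_of_eq ?_)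
    rw [pow_add]
    field_simp

/-- the large random primes are coprime to a given number -/
theorem cop_ev (z : ℕ → ℕ) (hz : Limit z) (c : ℝ) (hc : 1 < c) (a : ℕ → ℕ) (n : ℕ) (hn : 0 < n) :
    ∀ᶠ v : ℕ in atTop, v ∈ RS z (WW c) a → v.Coprime n := by
  have h1 : ∀ᶠ v : ℕ in atTop, ∀ q ∈ n.primeFactors, v ∈ RS z (WW c) a → ¬ q ∣ v := by
    rw [eventually_all_finset]
    intro q hq
    exact no_small z hz c hc a q (Nat.prime_of_mem_primeFactors hq)
  filter_upwards [h1] with v h2 h3
  by_contra hcon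
  rw [Nat.Prime.not_coprime_iff_dvd] at hcon
  obtain ⟨q, hq, h4, h5⟩ := hcon
  exact h2 q (Nat.mem_primeFactors.2 ⟨hq, h5, hn.ne'⟩) h3 h4

open Classical in
/-- **The law** for the palindromes with `2 L + 1` digits in a residue class. -/
theorem law {Ω : Type*} [MeasurableSpace Ω] {P : Measure Ω} {a : ℕ → Ω → ℕ} (h : Model P a) (z : ℕ → ℕ)
    (hz : Limit z) (c : ℝ) (hc : 1 < c) :
    ∀ᵐ ω ∂P, ∀ b m r : ℕ, 2 ≤ b → 0 < m → m.Coprime (2 * b) → r.Coprime m →
      Tendsto (fun L : ℕ => (((palb b L).filter (fun v => v ∈ RS z (WW c) (fun q => a q ω) ∧ v % m = r % m)).card : ℝ) *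
        L / (b : ℝ) ^ L) atTop (𝓝 (((b / 2 : ℕ) : ℝ) / Real.log b / m.totient)) := by
  refine ae_all_iff.2 fun b => ae_all_iff.2 fun m => ae_all_iff.2 fun r => ?_
  by_cases hh : 2 ≤ b ∧ 0 < m ∧ m.Coprime (2 * b) ∧ r.Coprime m
  swap
  · exact Eventually.of_forall fun ω a1 a2 a3 a4 => absurd ⟨a1, a2, a3, a4⟩ hh
  obtain ⟨hb, hm, hmc, hr⟩ := hh
  have key : ∀ᵐ ω ∂P, ∀ x ∈ TB b, Tendsto (fun L : ℕ => ((((SB b x.1 x.2 L).filter (fun v => v % m = r % m)).filter
      (fun v => v ∈ RS z (WW c) (fun q => a q ω))).card : ℝ) * L / ((b : ℝ) ^ (L - 1) / m)) atTop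
      (𝓝 (((2 * b * m : ℕ) : ℝ) / (2 * b * m).totient / (2 * Real.log b))) := by
    refine (ae_all_iff.2 fun x => ?_)
    by_cases hx : x ∈ TB b
    · filter_upwards [sparse ((DB b x.1 x.2 hb hx).res m r hm hmc hr) h z hz c hc] with ω hω _
      exact hω
    · exact Eventually.of_forall fun ω a1 => absurd a1 hx
  filter_upwards [key] with ω hω _ _ _ _
  set A := RS z (WW c) (fun q => a q ω) with hA
  have hb0 : (0 : ℝ) < b := by exact_mod_cast (by omega : 0 < b)
  have hm0 : (0 : ℝ) < m := by exact_mod_cast hm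
  have hlog : 0 < Real.log b := Real.log_pos (by exact_mod_cast (by omega : 1 < b))
  have hφ : (0 : ℝ) < m.totient := by exact_mod_cast Nat.totient_pos.2 hm
  have hφb : (0 : ℝ) < (2 * b).totient := by exact_mod_cast Nat.totient_pos.2 (by omega)
  have h1 : Tendsto (fun L : ℕ => ∑ x ∈ TB b, ((((SB b x.1 x.2 L).filter (fun v => v % m = r % m)).filter
      (fun v => v ∈ A)).card : ℝ) * L / ((b : ℝ) ^ (L - 1) / m) * (1 / (b * m))) atTop
      (𝓝 (∑ _x ∈ TB b, ((2 * b * m : ℕ) : ℝ) / (2 * b * m).totient / (2 * Real.log b) * (1 / (b * m)))) :=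
    tendsto_finsetSum _ fun x hx => (hω x hx).mul_const _
  rw [sum_const, card_TB b hb, nsmul_eq_mul] at h1
  have e1 : ((b / 2 * (2 * b).totient : ℕ) : ℝ) * (((2 * b * m : ℕ) : ℝ) / (2 * b * m).totient / (2 * Real.log b) *
      (1 / (b * m))) = ((b / 2 : ℕ) : ℝ) / Real.log b / m.totient := by
    rw [Nat.totient_mul hmc.symm]
    push_cast
    field_simp
  rw [e1] at h1
  refine h1.congr' ?_
  have hb1 : 1 < b := by omega
  have ht : Tendsto (fun L : ℕ => b ^ (2 * L)) atTop atTop :=
    (tendsto_pow_atTop_atTop_of_one_lt hb1).comp (tendsto_id.const_mul_atTop' (show 0 < 2 by norm_num))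
  obtain ⟨n2, hn2⟩ := eventually_atTop.1 (cop_ev z hz c hc (fun q => a q ω) (2 * b) (by omega))
  filter_upwards [ht.eventually_ge_atTop n2, eventually_ge_atTop 1] with L hL2 hL1
  have hcard : ((palb b L).filter (fun v => v ∈ A ∧ v % m = r % m)).card = ∑ x ∈ TB b,
      (((SB b x.1 x.2 L).filter (fun v => v % m = r % m)).filter (fun v => v ∈ A)).card := by
    rw [← card_biUnion]
    · congr 1
      ext v
      simp only [mem_biUnion, mem_filter]
      constructor
      · rintro ⟨a1, a2, a3⟩
        have hv : b ^ (2 * L) ≤ v := by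
          have := a1
          unfold palb at this
          exact (mem_filter.1 this).2.1
        have hcv := hn2 v (hL2.trans hv) a2
        have hvb : v.Coprime b := Nat.Coprime.coprime_mul_left_right hcv
        have hv2 : v.Coprime 2 := Nat.Coprime.coprime_mul_right_right hcv
        have hl : v % b < b := Nat.mod_lt _ (by omega)
        have hmm : v / b ^ L % b < b := Nat.mod_lt _ (by omega)
        have hvl : (v % b).gcd b = 1 := by rw [← Nat.gcd_rec, Nat.gcd_comm]; exact hvb
        have hl1 : 1 ≤ v % b := by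
          rcases Nat.eq_zero_or_pos (v % b) with h0 | h0
          · rw [h0, Nat.gcd_zero_left] at hvl
            omega
          · exact h0
        have hSB : v ∈ SB b (v % b) (v / b ^ L % b) L := by
          unfold SB
          rw [mem_filter]
          exact ⟨a1, rfl, rfl⟩
        refine ⟨(v % b, v / b ^ L % b), ?_, ⟨hSB, a3⟩, a2⟩
        unfold TB
        rw [mem_product, mem_filter, mem_filter, mem_range, mem_range]
        refine ⟨⟨hl, ?_⟩, hmm, fun hbo => ?_⟩
        · exact Nat.Coprime.symm hvl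
        · dsimp only
          rw [← parity b L _ _ v hb hL1 hl1 hl hmm hbo hSB]
          rw [Nat.coprime_two_right] at hv2
          exact Nat.odd_iff.1 hv2
      · rintro ⟨x, _, ⟨a1, a2⟩, a3⟩
        unfold SB at a1
        exact ⟨(mem_filter.1 a1).1, a3, a2⟩
    · intro x _ y _ hxy
      rw [Function.onFun, disjoint_left]
      intro v h3 h4
      unfold SB at h3 h4
      rw [mem_filter, mem_filter, mem_filter] at h3 h4
      apply hxy
      ext
      · exact h3.1.1.2.1.symm.trans h4.1.1.2.1
      · exact h3.1.1.2.2.symm.trans h4.1.1.2.2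
  rw [hcard, Nat.cast_sum, sum_mul, sum_div]
  refine sum_congr rfl fun x _ => ?_
  have e : (b : ℝ) ^ L = b ^ (L - 1) * b := by
    rw [← pow_succ]
    congr 1
    omega
  rw [e]
  field_simp

end Pool.Agent.H559.PB
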