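import Mathlib

set_option autoImplicit false

/-! # Palindromes in base `b`: the statements -/

open Finset Filter Topology

namespace Pool.Agent.H559.PB

/-- the palindromes with `2 L + 1` digits in base `b` -/
def palb (b L : ℕ) : Finset ℕ :=
  (range (b ^ (2 * L + 1))).filter (fun v => b ^ (2 * L) ≤ v ∧ (Nat.digits b v).reverse = Nat.digits b v)

/-- the free part of a palindrome: the digits at the positions `L ± (i + 1)`, `i < L - 1` -/
def free (b L : ℕ) (f : Fin (L - 1) → ℕ) : ℕ := ∑ i, f i * (b ^ (L + (i + 1)) + b ^ (L - (i + 1)))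

/-- EQUIDISTRIBUTION of the free part. PROOF. Let `w_c = b^(L+c) + b^(L-c)`, `1 ≤ c ≤ L - 1`, `e(x) = exp(2πix)`. By orthogonality the left
hand side is at most `(1/q) ∑_{h=1}^{q-1} |∏_c ∑_{j<b} e(j h w_c / q)| ≤ max_h ∏_c |∑_{j<b} e(j h w_c/q)|`. Put `η = 1/(b+1)²` and let `t_c` be the integer with
`t_c ≡ h w_c mod q`, `|t_c| ≤ q/2`. (1) If `|t_c| ≥ η q` then `|∑_{j<b} e(j h w_c / q)| ≤ (b - 2) + |1 + e(t_c/q)| ≤ b - 4η²` (`|1 + e(x)|² = 2 + 2cos 2πx ≤ 4 - 16 x²` for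
`|x| ≤ 1/2`). (2) Let `J ≥ 2`, `b^(J-2) ≥ q`. Among any `J` consecutive `c` in `[1, L-1]` one has `|t_c| ≥ η q`: otherwise, since `b w_{c+1} + b w_{c-1} = (b²+1) w_c` and
`|b t_{c+1} + b t_{c-1} - (b²+1) t_c| < (b+1)² η q = q`, equality `b t_{c+1} + b t_{c-1} = (b²+1) t_c` holds in the window, so `D_c = b t_{c+1} - t_c` satisfies `D_c = b D_{c-1}`
and `E_c = b t_c - t_{c+1}` satisfies `E_{c-1} = b E_c`; as `|D_c|, |E_c| < q` and `b^(J-2) ≥ q`, the first `D` and the last `E` are `0`, so all `D_c = E_c = 0`, so all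
`t_c = 0`; so `q` divides `h w_c` and `h w_{c+1}`, so (`q` coprime to `b`) `q | h (b^(2c) + 1)` and `q | h(b² - 1)` (as `b w_c - w_{c+1} = b^(L-c-1)(b² - 1)`), so
`h b^(2c) ≡ h`, `q | 2h`, `q | h` (`q` odd), a contradiction to `0 < h < q`. (3) `J = Nat.clog b (L^K) + 2` is `≤ √L` for large `L`, so at least `(L-1)/J - 1 ≥ √L/2 - 2` factors are
`≤ b - 4η²`: the product is `≤ b^(L-1) (1 - 4η²/b)^(√L/2 - 2) ≤ b^(L-1)/L^A` for large `L`. (`q = 1`: the left side is `0`.) -/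
def S_four : Prop := ∀ b : ℕ, 2 ≤ b → ∀ K A : ℕ, ∀ᶠ L : ℕ in atTop, ∀ q : ℕ, 1 ≤ q → q ≤ L ^ K → q.Coprime (2 * b) → ∀ r : ℕ,
  |((((Fintype.piFinset (fun _ : Fin (L - 1) => range b)).filter (fun f => free b L f % q = r % q)).card : ℕ) : ℝ) -
    (b : ℝ) ^ (L - 1) / q| ≤ (b : ℝ) ^ (L - 1) / (L : ℝ) ^ A

/-- PARAMETRIZATION of the palindromes with first and last digit `l` and middle digit `m`. PROOF. Digits: `v = ∑ d_k b^k` over `k ≤ 2L`, `d_k = d_{2L-k}`, `d_0 = d_{2L} = l`,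
`d_L = m`, `d_{L±(i+1)} = f i`; uniqueness of the digits (`Nat.ofDigits`, `Nat.digits_ofDigits`, `Nat.ofDigits_inj_of_len_eq`). For base 10 there is a proof in the library:
`Pool/Graph/R_seed8/H861R2/Pal/T11.lean` (`palin_eq`, `pvl_inj`), to be generalized or imitated. -/
def S_par : Prop := ∀ b L l m : ℕ, 2 ≤ b → 1 ≤ L → 1 ≤ l → l < b → m < b →
  (palb b L).filter (fun v => v % b = l ∧ v / b ^ L % b = m) =
    (Fintype.piFinset (fun _ : Fin (L - 1) => range b)).image (fun f => l * (b ^ (2 * L) + 1) + m * b ^ L + free b L f) ∧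
  Set.InjOn (fun f : Fin (L - 1) → ℕ => l * (b ^ (2 * L) + 1) + m * b ^ L + free b L f)
    (Fintype.piFinset (fun _ : Fin (L - 1) => range b) : Set (Fin (L - 1) → ℕ))

/-- EQUIDISTRIBUTION of the palindromes with given outer and middle digits. PROOF from `S_four` and `S_par`: `v % q = r % q` iff
`free b L f ≡ r - l (b^(2L)+1) - m b^L mod q` (use the natural number `r + (q-1) (l (b^(2L)+1) + m b^L)`). -/
def S_distb : Prop := ∀ b : ℕ, 2 ≤ b → ∀ K A : ℕ, ∀ᶠ L : ℕ in atTop, ∀ l m : ℕ, 1 ≤ l → l < b → m < b → ∀ q : ℕ, 1 ≤ q → q ≤ L ^ K →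
  q.Coprime (2 * b) → ∀ r : ℕ,
  |((((palb b L).filter (fun v => (v % b = l ∧ v / b ^ L % b = m) ∧ v % q = r % q)).card : ℕ) : ℝ) - (b : ℝ) ^ (L - 1) / q| ≤
    (b : ℝ) ^ (L - 1) / (L : ℝ) ^ A

/-- is a palindrome in base `b` -/
def Palb (b v : ℕ) : Prop := 1 ≤ v ∧ (Nat.digits b v).reverse = Nat.digits b v

open Classical in
/-- FROM THE NUMBERS OF DIGITS TO ALL `x` (deterministic). PROOF. (1) `#{v ≤ x : Palb b v}` is between `b^(k/2)/b²` and `b² b^(k/2)`, roughly, for `b^(k-1) ≤ x < b^k`, more precisely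
for `b^(2L) ≤ x < b^(2L+2)` it is between `b^L / b` and `4 b^(L+1)` (palindromes with `k` digits are determined by their first `⌈k/2⌉` digits; there are at least `(b-1) b^(L-1)` palindromes with `2L - 1` digits,
`L ≥ 1`). (2) The elements of `R` which are palindromes `≤ x` have, except for finitely many, an odd number of digits; for `b^(2L) ≤ x < b^(2L+2)` their number is between the number with
exactly `2L - 1` digits and (constant) `+ ∑_{L' ≤ L}` (number with `2L'+1` digits), and the latter is `≤ C b^L/L` since `∑_{L' ≤ L} b^L'/L' ≪ b^L/L`. (3) `log x` is between `2L log b` and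
`(2L+2) log b`. All constants depend only on `b` and `κ`. -/
def S_all : Prop := ∀ (b : ℕ) (κ : ℝ), 2 ≤ b → 0 < κ → ∃ C : ℝ, 0 < C ∧ ∀ R : Set ℕ,
  (∀ᶠ v : ℕ in atTop, v ∈ R → Palb b v → Odd (Nat.digits b v).length) →
  Tendsto (fun L : ℕ => (((palb b L).filter (fun v => v ∈ R)).card : ℝ) * L / (b : ℝ) ^ L) atTop (𝓝 κ) →
  ∀ᶠ x : ℕ in atTop, (((Icc 1 x).filter (fun v => Palb b v)).card : ℝ) / (C * Real.log x) ≤
      (((Icc 1 x).filter (fun v => Palb b v ∧ v ∈ R)).card : ℝ) ∧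
    (((Icc 1 x).filter (fun v => Palb b v ∧ v ∈ R)).card : ℝ) ≤ C * (((Icc 1 x).filter (fun v => Palb b v)).card : ℝ) / Real.log x

/-- A palindrome in base `b` with an even number of digits is divisible by `b + 1`. (Mathlib has the case `b = 10`: `Nat.eleven_dvd_of_palindrome`; the same proof modulo `b + 1`.) -/
def S_even : Prop := ∀ b v : ℕ, 2 ≤ b → Palb b v → Even (Nat.digits b v).length → b + 1 ∣ v

end Pool.Agent.H559.PB
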